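import Pool.Agent.OTW.Phi

set_option autoImplicit false

/-!
# Small primes: the analogue of Grün's bound, and three prime factors
-/

namespace Pool.Agent.OTW

open ArithmeticFunction Finset Pool.Agent.AS

lemma fM_prod (n : ℕ) : 0 < n → fM n = ∏ q ∈ n.primeFactors, ((q : ℝ) / (q - 1)) := by
  induction n using Nat.recOnPosPrimePosCoprime with
  | zero => intro h; omega
  | one => intro _; rw [fM_one]; simp
  | prime_pow p e hp he =>
    intro _
    rw [fM_pp hp he, Nat.primeFactors_prime_pow he.ne' hp, Finset.prod_singleton]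
  | coprime a b ha hb hab iha ihb =>
    intro _
    rw [fM_mul hab, iha (by omega), ihb (by omega), Nat.Coprime.primeFactors_mul hab,
      Finset.prod_union hab.disjoint_primeFactors]

lemma card_le_of_odd {p a : ℕ} (hp : Odd p) (ha : Odd a) (s : Finset ℕ)
    (h1 : ∀ x ∈ s, Odd x ∧ p ≤ x) (h2 : ∀ x ∈ s, x < a) (hpa : p ≤ a) : p + 2 * s.card ≤ a := by
  have hsub : s ⊆ (range ((a - p) / 2)).image (fun i => p + 2 * i) := by
    intro x hx
    obtain ⟨hxo, hpx⟩ := h1 x hx
    have hxa := h2 x hx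
    rw [Finset.mem_image]
    refine ⟨(x - p) / 2, ?_, ?_⟩
    · rw [Finset.mem_range]
      obtain ⟨u, hu⟩ := hp
      obtain ⟨v, hv⟩ := ha
      obtain ⟨w, hw⟩ := hxo
      omega
    · obtain ⟨u, hu⟩ := hp
      obtain ⟨w, hw⟩ := hxo
      omega
  have := le_trans (Finset.card_le_card hsub) Finset.card_image_le
  rw [Finset.card_range] at this
  omega

lemma prod_bound {p : ℕ} (hp : Odd p) (hp3 : 3 ≤ p) (s : Finset ℕ) :
    (∀ x ∈ s, Odd x ∧ p ≤ x) →
    ∏ q ∈ s, ((q : ℝ) / (q - 2)) ≤ ((p : ℝ) + 2 * s.card - 2) / (p - 2) := by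
  have hp3' : (3 : ℝ) ≤ p := by exact_mod_cast hp3
  induction s using Finset.induction_on_max with
  | empty =>
    intro _
    simp only [Finset.prod_empty, Finset.card_empty]
    rw [le_div_iff₀ (by linarith)]
    simp
  | insert a s hs ih =>
    intro h
    have ha := h a (by simp)
    have h' : ∀ x ∈ s, Odd x ∧ p ≤ x := fun x hx => h x (by simp [hx])
    have hns : a ∉ s := fun hc => lt_irrefl _ (hs a hc)
    rw [Finset.prod_insert hns, Finset.card_insert_of_notMem hns]
    have hc := card_le_of_odd hp ha.1 s h' hs ha.2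
    have hc' : (p : ℝ) + 2 * s.card ≤ a := by exact_mod_cast hc
    have hcn : (0 : ℝ) ≤ s.card := Nat.cast_nonneg _
    have e1 : (a : ℝ) / (a - 2) ≤ ((p : ℝ) + 2 * s.card) / (p + 2 * s.card - 2) := by
      rw [div_le_div_iff₀ (by linarith) (by linarith)]
      nlinarith
    have e2 := ih h'
    have e3 : 0 ≤ ∏ q ∈ s, ((q : ℝ) / (q - 2)) := by
      apply Finset.prod_nonneg
      intro q hq
      have : (3 : ℝ) ≤ q := by
        have := (h' q hq).2
        exact_mod_cast (le_trans hp3 this)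
      apply div_nonneg <;> linarith
    calc (a : ℝ) / (a - 2) * ∏ q ∈ s, ((q : ℝ) / (q - 2))
        ≤ ((p : ℝ) + 2 * s.card) / (p + 2 * s.card - 2) * (((p : ℝ) + 2 * s.card - 2) / (p - 2)) := by
          apply mul_le_mul e1 e2 e3
          apply div_nonneg <;> linarith
      _ = ((p : ℝ) + 2 * ((s.card + 1 : ℕ) : ℝ) - 2) / (p - 2) := by
          have h1 : (p : ℝ) + 2 * s.card - 2 ≠ 0 := by linarith
          have h2 : (p : ℝ) - 2 ≠ 0 := by linarith
          push_cast
          field_simp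
          ring

lemma sq_le {m p : ℕ} (hm : Odd m) (hm0 : 0 < m) (hp : Odd p) (hp3 : 3 ≤ p)
    (h : ∀ q ∈ m.primeFactors, p ≤ q) :
    fM m ^ 2 ≤ ((p : ℝ) + 2 * m.primeFactors.card - 2) / (p - 2) := by
  have hodd : ∀ q ∈ m.primeFactors, Odd q ∧ p ≤ q := by
    intro q hq
    refine ⟨?_, h q hq⟩
    have hd := Nat.dvd_of_mem_primeFactors hq
    exact hm.of_dvd_nat hd
  refine le_trans ?_ (prod_bound hp hp3 m.primeFactors hodd)
  rw [fM_prod m hm0, ← Finset.prod_pow]
  apply Finset.prod_le_prod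
  · intro q _
    positivity
  · intro q hq
    have h3 : (3 : ℝ) ≤ q := by exact_mod_cast (le_trans hp3 (h q hq))
    rw [div_pow, div_le_div_iff₀ (by nlinarith) (by linarith)]
    nlinarith

/-- the least odd prime factor is small -/
theorem grun {a m : ℕ} (hm : Odd m) (hm1 : 1 < m) (h : (a + 2) * m.totient < (a + 1) * m) :
    (2 * a + 3) * (m.minFac - 2) < 2 * (a + 1) ^ 2 * m.primeFactors.card := by
  have hp := Nat.minFac_prime hm1.ne'
  have hpo : Odd m.minFac := hm.of_dvd_nat (Nat.minFac_dvd m)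
  have hp3 : 3 ≤ m.minFac := by
    have := hp.two_le
    obtain ⟨c, hc⟩ := hpo
    omega
  have hsq := sq_le hm (by omega) hpo hp3 (fun q hq =>
    Nat.minFac_le_of_dvd (Nat.prime_of_mem_primeFactors hq).two_le (Nat.dvd_of_mem_primeFactors hq))
  have ht : 0 < m.totient := Nat.totient_pos.2 (by omega)
  have ht' : (0 : ℝ) < m.totient := by exact_mod_cast ht
  have hM : ((a : ℝ) + 2) < (a + 1) * fM m := by
    unfold fM
    rw [← mul_div_assoc, lt_div_iff₀ ht']
    exact_mod_cast h
  set p := m.minFac with hpdef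
  set r := m.primeFactors.card with hr
  have hp3' : (3 : ℝ) ≤ p := by exact_mod_cast hp3
  have ha0 : (0 : ℝ) ≤ a := Nat.cast_nonneg a
  have h1 : ((a : ℝ) + 2) ^ 2 < (a + 1) ^ 2 * fM m ^ 2 := by
    have : ((a : ℝ) + 2) ^ 2 < ((a + 1) * fM m) ^ 2 := by
      apply pow_lt_pow_left₀ hM (by linarith) (by norm_num)
    linarith [mul_pow ((a : ℝ) + 1) (fM m) 2]
  have h2 : ((a : ℝ) + 2) ^ 2 < (a + 1) ^ 2 * (((p : ℝ) + 2 * r - 2) / (p - 2)) :=
    lt_of_lt_of_le h1 (mul_le_mul_of_nonneg_left hsq (by positivity))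
  rw [← mul_div_assoc, lt_div_iff₀ (by linarith)] at h2
  have h3 : (2 * (a : ℝ) + 3) * (p - 2) < 2 * (a + 1) ^ 2 * r := by nlinarith
  have h4 : ((2 * a + 3 : ℕ) : ℝ) * ((p - 2 : ℕ) : ℝ) < ((2 * (a + 1) ^ 2 * r : ℕ) : ℝ) := by
    rw [Nat.cast_sub (by omega)]
    push_cast
    exact h3
  exact_mod_cast h4

/-- the tower of the powers of two -/
lemma tower_two : Tower 1 2 :=
  ⟨one_pos, Nat.prime_two, by decide, fun j => by rw [mul_one]; exact EQ_two_pow j⟩

/-- at least three prime factors -/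
theorem three {a m : ℕ} (hm : Odd m) (hm1 : 1 < m) (hE : EQ (2 ^ a * m)) :
    2 ≤ m.primeFactors.card ∧ (a = 0 → 3 ≤ m.primeFactors.card) := by
  have hm0 : 0 < m := by omega
  have h1 : 2 ≤ m.primeFactors.card := by
    by_contra hlt
    have hc : 0 < m.primeFactors.card := Finset.card_pos.2 ⟨m.minFac, by
      rw [Nat.mem_primeFactors]
      exact ⟨Nat.minFac_prime hm1.ne', Nat.minFac_dvd m, hm0.ne'⟩⟩
    have hcard : m.primeFactors.card = 1 := by omega
    obtain ⟨q, hq⟩ := Finset.card_eq_one.1 hcard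
    have hqm : q ∈ m.primeFactors := by rw [hq]; simp
    have hqp := Nat.prime_of_mem_primeFactors hqm
    have hqo : Odd q := hm.of_dvd_nat (Nat.dvd_of_mem_primeFactors hqm)
    have hmq : m = q ^ m.factorization q := by
      conv_lhs => rw [← Nat.prod_factorization_pow_eq_self hm0.ne']
      rw [Finsupp.prod, Nat.support_factorization, hq, Finset.prod_singleton]
    set f := m.factorization q with hf
    have hf0 : f ≠ 0 := by
      intro h0
      rw [h0, pow_zero] at hmq
      omega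
    have hq2 : ¬ q ∣ 2 ^ a := by
      intro hd
      have := (Nat.prime_dvd_prime_iff_eq hqp Nat.prime_two).1 (hqp.dvd_of_dvd_pow hd)
      rw [this] at hqo
      exact absurd hqo (by decide)
    have e0 : EQ (q ^ 0 * 2 ^ a) := by
      rw [pow_zero, one_mul]; exact EQ_two_pow a
    have e1 : EQ (q ^ f * 2 ^ a) := by
      rw [← hmq, mul_comm]; exact hE
    have hT := tower_of_two (by positivity) hqp hq2 (Ne.symm hf0) e0 e1
    have := tower_unique (n := 2 ^ a) (j := 0) (k := a) hT tower_two (by simp) (by simp)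
    rw [this.2] at hqo
    exact absurd hqo (by decide)
  refine ⟨h1, ?_⟩
  rintro rfl
  by_contra hlt
  have hcard : m.primeFactors.card = 2 := by omega
  have ho := (odd_part hm hm1 hE).1
  have ht : 0 < m.totient := Nat.totient_pos.2 (by omega)
  have ht' : (0 : ℝ) < m.totient := by exact_mod_cast ht
  have hM : 2 < fM m := by
    unfold fM
    rw [lt_div_iff₀ ht']
    have : 2 * m.totient < m := by omega
    exact_mod_cast this
  obtain ⟨p, q, hpq, hS⟩ := Finset.card_eq_two.1 hcard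
  rw [fM_prod m hm0, hS, Finset.prod_pair hpq] at hM
  have key : ∀ x ∈ m.primeFactors, Odd x ∧ 3 ≤ x := by
    intro x hx
    have hxp := (Nat.prime_of_mem_primeFactors hx).two_le
    have hxo : Odd x := hm.of_dvd_nat (Nat.dvd_of_mem_primeFactors hx)
    refine ⟨hxo, ?_⟩
    obtain ⟨c, hc⟩ := hxo
    omega
  have hp := key p (by rw [hS]; simp)
  have hq := key q (by rw [hS]; simp)
  have gen : ∀ x y : ℕ, Odd x → Odd y → 3 ≤ x → x < y →
      (x : ℝ) / (x - 1) * ((y : ℝ) / (y - 1)) ≤ 2 := by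
    intro x y hx hy hx3 hxy
    have hy5 : 5 ≤ y := by
      obtain ⟨c, hc⟩ := hx
      obtain ⟨d, hd⟩ := hy
      omega
    have hx3' : (3 : ℝ) ≤ x := by exact_mod_cast hx3
    have hy5' : (5 : ℝ) ≤ y := by exact_mod_cast hy5
    rw [div_mul_div_comm, div_le_iff₀ (by nlinarith)]
    nlinarith
  rcases lt_or_gt_of_ne hpq with h | h
  · have := gen p q hp.1 hq.1 hp.2 h
    linarith
  · have := gen q p hq.1 hp.1 hq.2 h
    rw [mul_comm] at this
    linarith

/-- a tower with `p = 2` is the tower of the powers of two -/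
lemma tower_even {m : ℕ} (h : Tower m 2) : m = 1 := by
  obtain ⟨hm, hp, hpm, -⟩ := id h
  obtain ⟨h1, -⟩ := (tower_iff hm hp hpm).1 h
  rw [show 2 - 1 = 1 from rfl, one_mul] at h1
  by_contra hne
  obtain ⟨b0, b1, b1', m1, a1, a1', -⟩ := compare m hm
  have hb := b1' (by omega)
  have hAB : fA m = fB m := by
    unfold fA fB
    rw [h1]
  linarith

/-- for an odd `m > 1` at most one of the numbers `2 ^ b m` is a solution -/
theorem one_b {m b c : ℕ} (hm : Odd m) (hm1 : 1 < m) (h1 : EQ (2 ^ b * m)) (h2 : EQ (2 ^ c * m)) :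
    b = c := by
  by_contra hne
  have h2m : ¬ 2 ∣ m := by
    intro hd
    obtain ⟨k, hk⟩ := hm
    omega
  have hT := tower_of_two (by omega) Nat.prime_two h2m hne h1 h2
  have := tower_even hT
  omega

/-- every other tower starts from a solution that is not a power of two, and `p` divides `τ(m)` -/
theorem tower_base {m p : ℕ} (h : Tower m p) :
    (m = 1 ∧ p = 2) ∨ (p ≠ 2 ∧ p ∣ m.divisors.card ∧ ¬ ∃ k, m = 2 ^ k) := by
  obtain ⟨hm, hp, hpm, -⟩ := id h
  by_cases hp2 : p = 2
  · subst hp2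
    exact Or.inl ⟨tower_even h, rfl⟩
  right
  refine ⟨hp2, ?_, ?_⟩
  · obtain ⟨-, h2⟩ := (tower_iff hm hp hpm).1 h
    have hd : p ∣ 2 * (m * m.divisors.card) := by rw [h2]; exact Dvd.intro _ rfl
    have c2 : Nat.Coprime p 2 := (Nat.coprime_primes hp Nat.prime_two).2 hp2
    have cm : Nat.Coprime p m := (Nat.Prime.coprime_iff_not_dvd hp).2 hpm
    exact cm.dvd_of_dvd_mul_left (c2.dvd_of_dvd_mul_left hd)
  · rintro ⟨k, hk⟩
    have := tower_unique (n := m) (j := 0) (k := k) h tower_two (by simp) (by simp [hk])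
    exact hp2 this.2

end Pool.Agent.OTW
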