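import Pool.Agent.AS.Main

set_option autoImplicit false

/-!
# A linear relation at every prime power, and towers of solutions
-/

namespace Pool.Agent.OTW

open ArithmeticFunction Finset Pool.Agent.AS

/-- the equation -/
def EQ (n : ℕ) : Prop := FF n + sigma 1 n = 2 * (n * n.divisors.card)

/-- the linear relation -/
theorem law (x N : ℕ) : ((x : ℤ) - 1) * TT x N + GG x N = N * (x : ℤ) ^ N := by
  induction N with
  | zero => simp [TT, GG]
  | succ N ih =>
    rw [TT_succ, GG_succ]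
    push_cast
    have : ((x : ℤ) - 1) * (TT x N + (N + 1) * (x : ℤ) ^ N) + (GG x N + (x : ℤ) ^ N) =
      (((x : ℤ) - 1) * TT x N + GG x N) + ((x : ℤ) - 1) * ((N + 1) * (x : ℤ) ^ N) + (x : ℤ) ^ N := by
      ring
    rw [this, ih]
    ring

lemma FF_pos {n : ℕ} (hn : 0 < n) : 0 < FF n := by
  rw [FF_apply]
  apply Finset.sum_pos
  · intro d hd
    have hd0 := Nat.pos_of_mem_divisors hd
    exact Nat.mul_pos hd0 (Finset.card_pos.2 ⟨1, by simp [hd0.ne']⟩)
  · exact ⟨1, by simp [hn.ne']⟩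

lemma sig_pos {n : ℕ} (hn : 0 < n) : 0 < sigma 1 n := by
  rw [sigma_one_apply]
  apply Finset.sum_pos
  · intro d hd
    exact Nat.pos_of_mem_divisors hd
  · exact ⟨1, by simp [hn.ne']⟩

lemma card_pos' {n : ℕ} (hn : 0 < n) : 0 < n.divisors.card :=
  Finset.card_pos.2 ⟨1, by simp [hn.ne']⟩

lemma TT_pos' {x N : ℕ} (hN : 0 < N) : 0 < TT x N := TT_pos hN

lemma GG_pos' {x e : ℕ} : 0 < GG x (e + 1) := by
  unfold GG
  rw [Finset.sum_range_succ']
  simp

section values
variable {p m : ℕ} (hp : p.Prime) (hpm : ¬ p ∣ m) (e : ℕ)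
include hp hpm

lemma cop : Nat.Coprime (p ^ e) m := ((Nat.Prime.coprime_iff_not_dvd hp).2 hpm).pow_left e

lemma FF_val : FF (p ^ e * m) = TT p (e + 1) * FF m := by
  rw [FF_mult.map_mul_of_coprime (cop hp hpm e), FF_prime_pow hp]

lemma sig_val : sigma 1 (p ^ e * m) = GG p (e + 1) * sigma 1 m := by
  rw [isMultiplicative_sigma.map_mul_of_coprime (cop hp hpm e), sigma_prime_pow hp]

lemma tau_val : (p ^ e * m).divisors.card = (e + 1) * m.divisors.card := by
  rw [(cop hp hpm e).card_divisors_mul, Nat.divisors_prime_pow hp, Finset.card_map,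
    Finset.card_range]

/-- the equation for `p ^ e m` -/
theorem key : EQ (p ^ e * m) ↔
    (TT p (e + 1) : ℤ) * ((FF m : ℤ) - ((p : ℤ) - 1) * sigma 1 m) =
      ((e : ℤ) + 1) * (p : ℤ) ^ e * (2 * (m * m.divisors.card) - p * sigma 1 m) := by
  unfold EQ
  rw [FF_val hp hpm, sig_val hp hpm, tau_val hp hpm]
  have hl := law p (e + 1)
  push_cast at hl
  have hG : (GG p (e + 1) : ℤ) = ((e : ℤ) + 1) * (p : ℤ) ^ (e + 1) - ((p : ℤ) - 1) * TT p (e + 1) := by
    linarith
  constructor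
  · intro h
    have h' : (TT p (e + 1) : ℤ) * FF m + GG p (e + 1) * sigma 1 m =
      2 * ((p : ℤ) ^ e * m * ((e + 1) * m.divisors.card)) := by exact_mod_cast h
    rw [hG] at h'
    rw [pow_succ] at h'
    linear_combination h'
  · intro h
    have h' : (TT p (e + 1) : ℤ) * FF m + GG p (e + 1) * sigma 1 m =
      2 * ((p : ℤ) ^ e * m * ((e + 1) * m.divisors.card)) := by
      rw [hG, pow_succ]
      linear_combination h
    exact_mod_cast h'

end values

/-- `p ^ j m` is a solution for all `j` -/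
def Tower (m p : ℕ) : Prop := 0 < m ∧ p.Prime ∧ ¬ p ∣ m ∧ ∀ j, EQ (p ^ j * m)

theorem tower_iff {m p : ℕ} (hm : 0 < m) (hp : p.Prime) (hpm : ¬ p ∣ m) :
    Tower m p ↔ FF m = (p - 1) * sigma 1 m ∧ 2 * (m * m.divisors.card) = p * sigma 1 m := by
  have hp1 : ((p - 1 : ℕ) : ℤ) = (p : ℤ) - 1 := by
    have := hp.one_le
    push_cast [Nat.cast_sub this]; ring
  constructor
  · rintro ⟨-, -, -, h⟩
    have h0 := (key hp hpm 0).1 (h 0)
    have h1 := (key hp hpm 1).1 (h 1)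
    have t0 : TT p (0 + 1) = 1 := by simp [TT]
    have t1 : TT p (1 + 1) = 1 + 2 * p := by simp [TT, Finset.sum_range_succ]
    rw [t0] at h0
    rw [t1] at h1
    push_cast at h0 h1
    have hD : (FF m : ℤ) - ((p : ℤ) - 1) * sigma 1 m = 0 := by
      linear_combination h1 - 2 * (p : ℤ) * h0
    have hE : (2 * (m * m.divisors.card) - p * sigma 1 m : ℤ) = 0 := by
      linear_combination hD - h0
    constructor
    · have : (FF m : ℤ) = ((p - 1 : ℕ) : ℤ) * sigma 1 m := by rw [hp1]; linarith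
      exact_mod_cast this
    · have : (2 * (m * m.divisors.card) : ℤ) = p * sigma 1 m := by linarith
      exact_mod_cast this
  · rintro ⟨h1, h2⟩
    refine ⟨hm, hp, hpm, fun j => ?_⟩
    rw [key hp hpm]
    have h1' : (FF m : ℤ) = ((p - 1 : ℕ) : ℤ) * sigma 1 m := by exact_mod_cast h1
    have h2' : (2 * (m * m.divisors.card) : ℤ) = p * sigma 1 m := by exact_mod_cast h2
    rw [h1', h2', hp1]
    ring

lemma TT_lt_GG (x N : ℕ) : TT x N ≤ N * GG x N := by
  unfold TT GG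
  rw [Finset.mul_sum]
  apply Finset.sum_le_sum
  intro j hj
  have := Finset.mem_range.1 hj
  exact Nat.mul_le_mul_right _ (by omega)

lemma A_step {p : ℕ} (e : ℕ) :
    (TT p (e + 1) : ℤ) * ((e + 2) * (p : ℤ) ^ (e + 1)) < TT p (e + 2) * ((e + 1) * (p : ℤ) ^ e) ∨ p = 0 := by
  rcases Nat.eq_zero_or_pos p with h | h
  · right; exact h
  left
  have hl := law p (e + 1)
  have h1 : (TT p (e + 1) : ℤ) ≤ (e + 1) * GG p (e + 1) := by exact_mod_cast TT_lt_GG p (e + 1)
  have h2 : (0 : ℤ) < GG p (e + 1) := by exact_mod_cast GG_pos'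
  have hpe : (0 : ℤ) < (p : ℤ) ^ e := by positivity
  rw [show e + 2 = (e + 1) + 1 from rfl, TT_succ p (e + 1)]
  push_cast at hl ⊢
  have h3 : (TT p (e + 1) : ℤ) < (e + 2) * GG p (e + 1) := by nlinarith
  have h4 : (TT p (e + 1) : ℤ) * ((e + 2) * p - (e + 1)) < (e + 2) * (e + 1) * (p : ℤ) ^ (e + 1) := by
    have : (TT p (e + 1) : ℤ) * ((e + 2) * p - (e + 1)) =
      (e + 2) * (((p : ℤ) - 1) * TT p (e + 1) + GG p (e + 1)) + TT p (e + 1) - (e + 2) * GG p (e + 1) := by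
      ring
    rw [this, hl]
    linarith
  have h5 := mul_lt_mul_of_pos_right h4 hpe
  have e1 : (TT p (e + 1) : ℤ) * ((e + 2) * (p : ℤ) ^ (e + 1)) =
      (TT p (e + 1) : ℤ) * ((e + 2) * p - (e + 1)) * (p : ℤ) ^ e + TT p (e + 1) * ((e + 1) * (p : ℤ) ^ e) := by
    rw [pow_succ]; ring
  rw [e1]
  linarith [h5]

/-- `A(p ^ e) = T(p ^ e) / ((e + 1) p ^ e)` -/
noncomputable def AA (p e : ℕ) : ℝ := (TT p (e + 1) : ℝ) / ((e + 1) * (p : ℝ) ^ e)

lemma AA_strict {p : ℕ} (hp : 0 < p) : StrictMono (AA p) := by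
  apply strictMono_nat_of_lt_succ
  intro e
  have h := (A_step (p := p) e).resolve_right hp.ne'
  have hp' : (0 : ℝ) < p := by exact_mod_cast hp
  unfold AA
  rw [div_lt_div_iff₀ (by positivity) (by positivity)]
  have h' : (TT p (e + 1) : ℝ) * ((e + 2) * (p : ℝ) ^ (e + 1)) <
    TT p (e + 2) * ((e + 1) * (p : ℝ) ^ e) := by exact_mod_cast h
  push_cast
  have e2 : ((e : ℝ) + 1 + 1) = e + 2 := by ring
  rw [e2]
  exact h'

/-- two different exponents make a tower -/
theorem tower_of_two {m p e f : ℕ} (hm : 0 < m) (hp : p.Prime) (hpm : ¬ p ∣ m) (hef : e ≠ f)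
    (h1 : EQ (p ^ e * m)) (h2 : EQ (p ^ f * m)) : Tower m p := by
  have k1 := (key hp hpm e).1 h1
  have k2 := (key hp hpm f).1 h2
  have hp0 : (0 : ℝ) < p := by exact_mod_cast hp.pos
  have r1 : AA p e * ((FF m : ℝ) - ((p : ℝ) - 1) * sigma 1 m) = 2 * (m * m.divisors.card) - p * sigma 1 m := by
    unfold AA
    have : (TT p (e + 1) : ℝ) * ((FF m : ℝ) - ((p : ℝ) - 1) * sigma 1 m) =
      ((e : ℝ) + 1) * (p : ℝ) ^ e * (2 * (m * m.divisors.card) - p * sigma 1 m) := by exact_mod_cast k1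
    field_simp
    linarith
  have r2 : AA p f * ((FF m : ℝ) - ((p : ℝ) - 1) * sigma 1 m) = 2 * (m * m.divisors.card) - p * sigma 1 m := by
    unfold AA
    have : (TT p (f + 1) : ℝ) * ((FF m : ℝ) - ((p : ℝ) - 1) * sigma 1 m) =
      ((f : ℝ) + 1) * (p : ℝ) ^ f * (2 * (m * m.divisors.card) - p * sigma 1 m) := by exact_mod_cast k2
    field_simp
    linarith
  have hne : AA p e - AA p f ≠ 0 := sub_ne_zero.2 fun h => hef ((AA_strict hp.pos).injective h)
  have hD : ((FF m : ℝ) - ((p : ℝ) - 1) * sigma 1 m) = 0 := by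
    have : (AA p e - AA p f) * ((FF m : ℝ) - ((p : ℝ) - 1) * sigma 1 m) = 0 := by linarith
    exact (mul_eq_zero.1 this).resolve_left hne
  have hE : (2 * (m * m.divisors.card) - p * sigma 1 m : ℝ) = 0 := by
    rw [← r1, hD, mul_zero]
  rw [tower_iff hm hp hpm]
  have hp1 : ((p - 1 : ℕ) : ℝ) = (p : ℝ) - 1 := by
    rw [Nat.cast_sub hp.one_le]; simp
  constructor
  · have : (FF m : ℝ) = ((p - 1 : ℕ) : ℝ) * sigma 1 m := by rw [hp1]; linarith
    exact_mod_cast this
  · have : (2 * (m * m.divisors.card) : ℝ) = p * sigma 1 m := by linarith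
    exact_mod_cast this

lemma GG_mod {p : ℕ} (e : ℕ) : ∃ c, GG p (e + 1) = 1 + p * c := by
  unfold GG
  rw [Finset.sum_range_succ']
  refine ⟨∑ j ∈ range e, p ^ j, ?_⟩
  rw [Finset.mul_sum]
  simp only [pow_succ, pow_zero]
  rw [add_comm]
  congr 1
  exact Finset.sum_congr rfl fun j _ => by ring

lemma TT_mod {p : ℕ} (e : ℕ) : ∃ c, TT p (e + 1) = 1 + p * c := by
  unfold TT
  rw [Finset.sum_range_succ']
  refine ⟨∑ j ∈ range e, (j + 1 + 1) * p ^ j, ?_⟩
  rw [Finset.mul_sum]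
  simp only [pow_succ, pow_zero]
  rw [add_comm]
  congr 1
  exact Finset.sum_congr rfl fun j _ => by ring

lemma cop_GG {p : ℕ} (hp : p.Prime) (e : ℕ) : Nat.Coprime p (GG p (e + 1)) := by
  obtain ⟨c, hc⟩ := GG_mod (p := p) e
  rw [Nat.Prime.coprime_iff_not_dvd hp, hc]
  intro h
  have : p ∣ 1 := (Nat.dvd_add_left (Dvd.intro c rfl)).1 h
  exact hp.one_lt.ne' (Nat.dvd_one.1 this)

lemma cop_TT {p : ℕ} (hp : p.Prime) (e : ℕ) : Nat.Coprime p (TT p (e + 1)) := by
  obtain ⟨c, hc⟩ := TT_mod (p := p) e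
  rw [Nat.Prime.coprime_iff_not_dvd hp, hc]
  intro h
  have : p ∣ 1 := (Nat.dvd_add_left (Dvd.intro c rfl)).1 h
  exact hp.one_lt.ne' (Nat.dvd_one.1 this)

lemma tower_rel {m p j n : ℕ} (h : Tower m p) (hn : n = p ^ j * m) :
    p ^ (j + 1) * (j + 1) * sigma 1 n = 2 * (n * n.divisors.card) * GG p (j + 1) := by
  obtain ⟨hm, hp, hpm, -⟩ := id h
  obtain ⟨-, h2⟩ := (tower_iff hm hp hpm).1 h
  rw [hn, sig_val hp hpm, tau_val hp hpm]
  calc p ^ (j + 1) * (j + 1) * (GG p (j + 1) * sigma 1 m)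
      = p ^ j * (j + 1) * GG p (j + 1) * (p * sigma 1 m) := by rw [pow_succ]; ring
    _ = p ^ j * (j + 1) * GG p (j + 1) * (2 * (m * m.divisors.card)) := by rw [h2]
    _ = _ := by ring

/-- every solution lies in at most one tower -/
theorem tower_unique {m p j m' q k n : ℕ} (h : Tower m p) (h' : Tower m' q)
    (hn : n = p ^ j * m) (hn' : n = q ^ k * m') : m = m' ∧ p = q := by
  obtain ⟨hm, hp, hpm, -⟩ := id h
  obtain ⟨hm', hq, hqm, -⟩ := id h'
  have hn0 : 0 < n := by rw [hn]; exact Nat.mul_pos (pow_pos hp.pos _) hm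
  have hpq : p = q := by
    by_contra hne
    have r1 := tower_rel h hn
    have r2 := tower_rel h' hn'
    have hS := sig_pos hn0
    have hN : 0 < 2 * (n * n.divisors.card) := by
      have := card_pos' hn0
      positivity
    have r3 : p ^ (j + 1) * (j + 1) * GG q (k + 1) = q ^ (k + 1) * (k + 1) * GG p (j + 1) := by
      have : (2 * (n * n.divisors.card)) * sigma 1 n * (p ^ (j + 1) * (j + 1) * GG q (k + 1)) =
        (2 * (n * n.divisors.card)) * sigma 1 n * (q ^ (k + 1) * (k + 1) * GG p (j + 1)) := by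
        calc (2 * (n * n.divisors.card)) * sigma 1 n * (p ^ (j + 1) * (j + 1) * GG q (k + 1))
            = (p ^ (j + 1) * (j + 1) * sigma 1 n) * (2 * (n * n.divisors.card) * GG q (k + 1)) := by ring
          _ = (2 * (n * n.divisors.card) * GG p (j + 1)) * (q ^ (k + 1) * (k + 1) * sigma 1 n) := by
            rw [r1, r2]
          _ = _ := by ring
      exact Nat.eq_of_mul_eq_mul_left (Nat.mul_pos hN hS) this
    have hcpq : Nat.Coprime p q := (Nat.coprime_primes hp hq).2 hne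
    have d1 : p ^ (j + 1) ∣ k + 1 := by
      have : p ^ (j + 1) ∣ q ^ (k + 1) * (k + 1) * GG p (j + 1) := by
        rw [← r3, mul_assoc]; exact Dvd.intro _ rfl
      have := (Nat.Coprime.pow_left (j + 1) (cop_GG hp j)).dvd_of_dvd_mul_right this
      exact (Nat.Coprime.pow (j + 1) (k + 1) hcpq).dvd_of_dvd_mul_left this
    have d2 : q ^ (k + 1) ∣ j + 1 := by
      have : q ^ (k + 1) ∣ p ^ (j + 1) * (j + 1) * GG q (k + 1) := by
        rw [r3, mul_assoc]; exact Dvd.intro _ rfl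
      have := (Nat.Coprime.pow_left (k + 1) (cop_GG hq k)).dvd_of_dvd_mul_right this
      exact (Nat.Coprime.pow (k + 1) (j + 1) hcpq.symm).dvd_of_dvd_mul_left this
    have l1 := Nat.le_of_dvd (Nat.succ_pos _) d1
    have l2 := Nat.le_of_dvd (Nat.succ_pos _) d2
    have g1 : j + 1 < p ^ (j + 1) := Nat.lt_pow_self hp.one_lt
    have g2 : k + 1 < q ^ (k + 1) := Nat.lt_pow_self hq.one_lt
    omega
  subst hpq
  refine ⟨?_, rfl⟩
  have f1 : n.factorization p = j := by
    rw [hn, Nat.factorization_mul (pow_pos hp.pos _).ne' hm.ne', Finsupp.add_apply,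
      hp.factorization_pow, Finsupp.single_eq_same, Nat.factorization_eq_zero_of_not_dvd hpm, add_zero]
  have f2 : n.factorization p = k := by
    rw [hn', Nat.factorization_mul (pow_pos hp.pos _).ne' hm'.ne', Finsupp.add_apply,
      hp.factorization_pow, Finsupp.single_eq_same, Nat.factorization_eq_zero_of_not_dvd hqm, add_zero]
  have hjk : j = k := by rw [← f1, ← f2]
  subst hjk
  rw [hn] at hn'
  exact Nat.eq_of_mul_eq_mul_left (pow_pos hp.pos _) hn'

/-- outside the tower `p ^ e` divides a nonzero number -/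
theorem dvd_of_EQ {m p e : ℕ} (hp : p.Prime) (hpm : ¬ p ∣ m) (h : EQ (p ^ e * m)) :
    ((p : ℤ) ^ e) ∣ (FF m : ℤ) - ((p : ℤ) - 1) * sigma 1 m := by
  have k1 := (key hp hpm e).1 h
  have hc : IsCoprime ((p : ℤ) ^ e) (TT p (e + 1) : ℤ) := by
    have := Nat.Coprime.pow_left e (cop_TT hp e)
    have := Nat.isCoprime_iff_coprime.2 this
    exact_mod_cast this
  apply hc.dvd_of_dvd_mul_left
  rw [k1]
  exact ⟨((e : ℤ) + 1) * (2 * (m * m.divisors.card) - p * sigma 1 m), by ring⟩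

/-- for given `m` only finitely many solutions `p ^ e m` outside the tower -/
theorem finite_ext {m : ℕ} (hm : 0 < m) :
    {n : ℕ | ∃ p e, p.Prime ∧ ¬ p ∣ m ∧ 1 ≤ e ∧ n = p ^ e * m ∧ EQ n ∧ ¬ Tower m p}.Finite := by
  have hF := FF_pos hm
  have hS := sig_pos hm
  apply Set.Finite.subset (Set.finite_Iic ((FF m + (FF m + sigma 1 m) * sigma 1 m) * m))
  rintro n ⟨p, e, hp, hpm, he, rfl, hE, hT⟩
  have hd := dvd_of_EQ hp hpm hE
  have hD0 : (FF m : ℤ) - ((p : ℤ) - 1) * sigma 1 m ≠ 0 := by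
    intro h0
    apply hT
    have k1 := (key hp hpm e).1 hE
    rw [h0, mul_zero] at k1
    have hpe : ((e : ℤ) + 1) * (p : ℤ) ^ e ≠ 0 := by
      have := hp.pos
      positivity
    have hE0 : (2 * (m * m.divisors.card) - p * sigma 1 m : ℤ) = 0 :=
      (mul_eq_zero.1 k1.symm).resolve_left hpe
    rw [tower_iff hm hp hpm]
    have hp1 : ((p - 1 : ℕ) : ℤ) = (p : ℤ) - 1 := by
      have := hp.one_le
      push_cast [Nat.cast_sub this]; ring
    constructor
    · have : (FF m : ℤ) = ((p - 1 : ℕ) : ℤ) * sigma 1 m := by rw [hp1]; linarith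
      exact_mod_cast this
    · have : (2 * (m * m.divisors.card) : ℤ) = p * sigma 1 m := by linarith
      exact_mod_cast this
  have hp_dvd : (p : ℤ) ∣ (FF m : ℤ) + sigma 1 m := by
    have h1 : (p : ℤ) ∣ (FF m : ℤ) - ((p : ℤ) - 1) * sigma 1 m :=
      dvd_trans (dvd_pow_self _ (by omega)) hd
    have h2 : (FF m : ℤ) + sigma 1 m = ((FF m : ℤ) - ((p : ℤ) - 1) * sigma 1 m) + p * sigma 1 m := by ring
    rw [h2]
    exact dvd_add h1 (Dvd.intro _ rfl)
  have hp_le : (p : ℤ) ≤ FF m + sigma 1 m := by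
    apply Int.le_of_dvd _ hp_dvd
    have : (0 : ℤ) < FF m := by exact_mod_cast hF
    have : (0 : ℤ) < sigma 1 m := by exact_mod_cast hS
    linarith
  have hpe_le : (p : ℤ) ^ e ≤ |(FF m : ℤ) - ((p : ℤ) - 1) * sigma 1 m| :=
    Int.le_of_dvd (abs_pos.2 hD0) ((dvd_abs _ _).2 hd)
  have hb : |(FF m : ℤ) - ((p : ℤ) - 1) * sigma 1 m| ≤ FF m + (FF m + sigma 1 m) * sigma 1 m := by
    have h1 : (0 : ℤ) < FF m := by exact_mod_cast hF
    have h2 : (0 : ℤ) < sigma 1 m := by exact_mod_cast hS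
    have h3 : (1 : ℤ) ≤ p := by exact_mod_cast hp.one_le
    rw [abs_le]
    constructor <;> nlinarith
  have : (p : ℤ) ^ e ≤ FF m + (FF m + sigma 1 m) * sigma 1 m := le_trans hpe_le hb
  have h' : p ^ e ≤ FF m + (FF m + sigma 1 m) * sigma 1 m := by exact_mod_cast this
  exact Nat.mul_le_mul_right m h'

end Pool.Agent.OTW
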