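import Pool.Agent.OTW.Pat

set_option autoImplicit false

/-!
# The powers of two are the only tower
-/

namespace Pool.Agent.OTW

open ArithmeticFunction Finset Pool.Agent.AS

lemma GG_lt {p : ℕ} (hp : 2 ≤ p) (e : ℕ) : GG p (e + 1) + 1 ≤ 2 * p ^ e := by
  induction e with
  | zero => simp [GG]
  | succ e ih =>
    rw [GG_succ]
    have : p ^ (e + 1) = p * p ^ e := by rw [pow_succ]; ring
    nlinarith [Nat.mul_le_mul_right (p ^ e) hp]

lemma fB_lt' {p : ℕ} (hp : p.Prime) (e : ℕ) : fB (p ^ e) < 2 / ((e : ℝ) + 1) := by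
  rw [fB_pp hp]
  have h : (GG p (e + 1) : ℝ) + 1 ≤ 2 * (p : ℝ) ^ e := by exact_mod_cast GG_lt hp.two_le e
  have hp0 : (0 : ℝ) < (p : ℝ) ^ e := by
    have : (0 : ℝ) < p := by exact_mod_cast hp.pos
    positivity
  have he : (0 : ℝ) < (e : ℝ) + 1 := by positivity
  rw [div_lt_div_iff₀ (by positivity) he]
  nlinarith

/-- the only tower is the one of the powers of two -/
theorem tower_only {m p : ℕ} (h : Tower m p) : m = 1 ∧ p = 2 := by
  rcases tower_base h with h1 | ⟨hp2, hd, -⟩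
  · exact h1
  exfalso
  obtain ⟨hm, hp, hpm, -⟩ := id h
  obtain ⟨-, h2⟩ := (tower_iff hm hp hpm).1 h
  rw [Nat.card_divisors hm.ne'] at hd
  obtain ⟨q, hq, hdq⟩ := (hp.prime.dvd_finsetProd_iff _).1 hd
  have hqp := Nat.prime_of_mem_primeFactors hq
  set e := m.factorization q with he
  have hpe : p ≤ e + 1 := Nat.le_of_dvd (Nat.succ_pos _) hdq
  have hm' : m = q ^ e * (m / q ^ e) := (Nat.ordProj_mul_ordCompl_eq_self m q).symm
  have hc : Nat.Coprime (q ^ e) (m / q ^ e) := (Nat.coprime_ordCompl hqp hm.ne').pow_left e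
  have hpos : 0 < m / q ^ e := Nat.ordCompl_pos q hm.ne'
  have hB : fB m = 2 / p := by
    unfold fB
    have h3 : (2 * (m * m.divisors.card) : ℝ) = p * sigma 1 m := by exact_mod_cast h2
    have h4 : (0 : ℝ) < m.divisors.card := by exact_mod_cast card_pos' hm
    have h5 : (0 : ℝ) < m := by exact_mod_cast hm
    have h6 : (0 : ℝ) < p := by exact_mod_cast hp.pos
    have h7 : (m : ℝ) * m.divisors.card ≠ 0 := (mul_pos h5 h4).ne'
    have h8 : (p : ℝ) ≠ 0 := h6.ne'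
    rw [div_eq_div_iff h7 h8]
    linarith
  have hfac : fB m = fB (q ^ e) * fB (m / q ^ e) := by
    rw [← fB_mul hc]
    exact congrArg fB hm'
  have hB2 : fB m ≤ fB (q ^ e) := by
    rw [hfac]
    have h1 := (compare _ hpos).2.1
    have h3 := fB_pos (pow_pos hqp.pos e)
    have h4 : fB (q ^ e) * fB (m / q ^ e) ≤ fB (q ^ e) * 1 := mul_le_mul_of_nonneg_left h1 h3.le
    rw [mul_one] at h4
    exact h4
  have hB3 := fB_lt' hqp e
  have hp0 : (0 : ℝ) < p := by exact_mod_cast hp.pos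
  have h7 : (2 : ℝ) / (e + 1) ≤ 2 / p := by
    apply div_le_div_of_nonneg_left (by norm_num) hp0
    exact_mod_cast hpe
  linarith

theorem two_exponents {m p e f : ℕ} (hm : 0 < m) (hp : p.Prime) (hpm : ¬ p ∣ m) (hef : e ≠ f)
    (h1 : EQ (p ^ e * m)) (h2 : EQ (p ^ f * m)) : m = 1 ∧ p = 2 :=
  tower_only (tower_of_two hm hp hpm hef h1 h2)

theorem ne_of_EQ {m p e : ℕ} (hm : 0 < m) (hp : p.Prime) (hpm : ¬ p ∣ m) (h : EQ (p ^ e * m))
    (hne : m ≠ 1 ∨ p ≠ 2) : (FF m : ℤ) ≠ ((p : ℤ) - 1) * sigma 1 m := by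
  intro h0
  have k1 := (key hp hpm e).1 h
  rw [h0, sub_self, mul_zero] at k1
  have hpe : ((e : ℤ) + 1) * (p : ℤ) ^ e ≠ 0 := by
    have := hp.pos
    positivity
  have hE0 : (2 * (m * m.divisors.card) - p * sigma 1 m : ℤ) = 0 :=
    (mul_eq_zero.1 k1.symm).resolve_left hpe
  have hp1 : ((p - 1 : ℕ) : ℤ) = (p : ℤ) - 1 := by
    have := hp.one_le
    push_cast [Nat.cast_sub this]; ring
  have hT : Tower m p := by
    rw [tower_iff hm hp hpm]
    constructor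
    · have : (FF m : ℤ) = ((p - 1 : ℕ) : ℤ) * sigma 1 m := by rw [hp1]; exact h0
      exact_mod_cast this
    · have : (2 * (m * m.divisors.card) : ℤ) = p * sigma 1 m := by linarith
      exact_mod_cast this
  have := tower_only hT
  omega

theorem finite_m {m : ℕ} (hm : 0 < m) :
    {n : ℕ | ∃ p e, p.Prime ∧ ¬ p ∣ m ∧ n = p ^ e * m ∧ EQ n ∧ ¬ ∃ k, n = 2 ^ k}.Finite := by
  apply ((finite_ext hm).union (Set.finite_singleton m)).subset
  rintro n ⟨p, e, hp, hpm, rfl, hE, hk⟩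
  rcases Nat.eq_zero_or_pos e with rfl | he
  · right
    simp
  · left
    refine ⟨p, e, hp, hpm, he, rfl, hE, fun hT => hk ?_⟩
    obtain ⟨rfl, rfl⟩ := tower_only hT
    exact ⟨e, by simp⟩

theorem finite_K (K : ℕ) :
    {n : ℕ | 0 < n ∧ EQ n ∧ (∀ p ∈ n.primeFactors, p ≤ K) ∧ ¬ ∃ k, n = 2 ^ k}.Finite := by
  apply (finite_radical K).subset
  rintro n ⟨hn, hE, hK, hk⟩
  refine ⟨hn, hE, hK, ?_⟩
  rintro ⟨m, p, j, hT, rfl⟩
  obtain ⟨rfl, rfl⟩ := tower_only hT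
  exact hk ⟨j, by simp⟩

end Pool.Agent.OTW
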