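import Pool.Agent.OTW.Rad

set_option autoImplicit false

/-!
# Solutions with at most `r` prime factors and exponents bounded in terms of the prime
-/

namespace Pool.Agent.OTW

open ArithmeticFunction Finset Pool.Agent.AS Filter Topology

lemma ultra_const (U : Ultrafilter ℕ) (g : ℕ → ℕ) (N : ℕ) (h : ∀ᶠ n in (U : Filter ℕ), g n < N) :
    ∃ w, ∀ᶠ n in (U : Filter ℕ), g n = w := by
  by_contra hcon
  push Not at hcon
  have hall : ∀ w ∈ Finset.range N, ∀ᶠ n in (U : Filter ℕ), g n ≠ w := fun w _ => hcon w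
  have h2 : ∀ᶠ n in (U : Filter ℕ), ∀ w ∈ Finset.range N, g n ≠ w :=
    (Finset.eventually_all _).2 hall
  obtain ⟨n, hn1, hn2⟩ := (h.and h2).exists
  exact hn2 _ (Finset.mem_range.2 hn1) rfl

/-- `σ(n) / n` -/
noncomputable def fR (n : ℕ) : ℝ := (sigma 1 n : ℝ) / n

lemma fR_le (n : ℕ) : 0 < n → fR n ≤ fM n := by
  induction n using Nat.recOnPosPrimePosCoprime with
  | zero => intro h; omega
  | one => intro _; unfold fR fM; simp
  | prime_pow p e hp he =>
    intro _
    rw [fM_pp hp he]
    unfold fR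
    rw [sigma_prime_pow hp]
    have hp1 : (1 : ℝ) < p := by exact_mod_cast hp.one_lt
    have hpe : (0 : ℝ) < (p : ℝ) ^ e := by positivity
    have hG : (GG p (e + 1) : ℝ) = ((p : ℝ) ^ (e + 1) - 1) / (p - 1) := by
      unfold GG
      push_cast
      exact geom_sum_eq (by linarith) _
    push_cast
    rw [hG, div_div, div_le_div_iff₀ (by positivity) (by linarith), pow_succ]
    nlinarith [mul_pos hpe (show (0:ℝ) < p - 1 by linarith)]
  | coprime a b ha hb hab iha ihb =>
    intro _
    have h1 := iha (by omega)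
    have h2 := ihb (by omega)
    have e1 : fR (a * b) = fR a * fR b := by
      unfold fR
      rw [isMultiplicative_sigma.map_mul_of_coprime hab]
      push_cast
      rw [div_mul_div_comm]
    rw [e1, fM_mul hab]
    apply mul_le_mul h1 h2
    · unfold fR; positivity
    · have := (compare a (by omega)).2.2.2.1
      linarith

lemma fB_R {n : ℕ} (hn : 0 < n) : fB n = fR n / n.divisors.card := by
  unfold fB fR
  rw [div_div]

lemma fR_gt {n : ℕ} (hn : 1 < n) : 1 < fR n := by
  unfold fR
  have h0 : (0 : ℝ) < n := by exact_mod_cast (by omega : 0 < n)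
  rw [lt_div_iff₀ h0, one_mul]
  have : n < sigma 1 n := by
    rw [sigma_one_apply]
    have hsub : ({1, n} : Finset ℕ) ⊆ n.divisors := by
      intro d hd
      simp only [Finset.mem_insert, Finset.mem_singleton] at hd
      rcases hd with rfl | rfl <;> simp <;> omega
    have h1 := Finset.sum_le_sum_of_subset (f := fun d : ℕ => d) hsub
    rw [Finset.sum_pair (by omega)] at h1
    omega
  exact_mod_cast this

theorem finite_fun (r : ℕ) (f : ℕ → ℕ) :
    {n : ℕ | 0 < n ∧ EQ n ∧ n.primeFactors.card ≤ r ∧ ∀ p, p.Prime → n.factorization p ≤ f p}.Finite := by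
  classical
  by_contra hinf
  set X := {n : ℕ | 0 < n ∧ EQ n ∧ n.primeFactors.card ≤ r ∧ ∀ p, p.Prime → n.factorization p ≤ f p}
    with hXdef
  have hX : X.Infinite := hinf
  have hne : (cofinite ⊓ 𝓟 X).NeBot := cofinite_inf_principal_neBot_iff.2 hX
  set U : Ultrafilter ℕ := Ultrafilter.of (cofinite ⊓ 𝓟 X) with hU
  have hUle : (U : Filter ℕ) ≤ cofinite ⊓ 𝓟 X := Ultrafilter.of_le _
  have hUcof : (U : Filter ℕ) ≤ cofinite := le_trans hUle inf_le_left
  have hUX : ∀ᶠ n in (U : Filter ℕ), n ∈ X := by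
    have : (U : Filter ℕ) ≤ 𝓟 X := le_trans hUle inf_le_right
    exact this (mem_principal_self _)
  have hw : ∀ p : ℕ, ∃ w : ℕ, p.Prime → ∀ᶠ n in (U : Filter ℕ), n.factorization p = w := by
    intro p
    by_cases hp : p.Prime
    · obtain ⟨w, hw⟩ := ultra_const U (fun n => n.factorization p) (f p + 1) (by
        filter_upwards [hUX] with n hn
        have := hn.2.2.2 p hp
        omega)
      exact ⟨w, fun _ => hw⟩
    · exact ⟨0, fun h => absurd h hp⟩
  choose w hw using hw
  have hfin : {p : ℕ | p.Prime ∧ w p ≠ 0}.Finite := by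
    by_contra hi
    obtain ⟨s, hs, hsc⟩ := Set.Infinite.exists_subset_card_eq hi (r + 1)
    have h1 : ∀ᶠ n in (U : Filter ℕ), ∀ p ∈ s, n.factorization p = w p :=
      (Finset.eventually_all _).2 fun p hp => hw p (hs hp).1
    obtain ⟨n, hn, hnX⟩ := (h1.and hUX).exists
    have hsub : s ⊆ n.primeFactors := by
      intro p hp
      rw [← Nat.support_factorization, Finsupp.mem_support_iff, hn p hp]
      exact (hs hp).2
    have := Finset.card_le_card hsub
    have := hnX.2.2.1
    omega
  set S := hfin.toFinset with hSdef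
  have hSmem : ∀ p, p ∈ S ↔ p.Prime ∧ w p ≠ 0 := fun p => by rw [hSdef, Set.Finite.mem_toFinset]; rfl
  have hS : ∀ p ∈ S, p.Prime := fun p hp => ((hSmem p).1 hp).1
  set m : ℕ := ∏ p ∈ S, p ^ w p with hm
  have hm0 : 0 < m := prod_pos' hS w
  set c : ℕ → ℕ := fun n => ∏ p ∈ n.primeFactors \ S, p ^ n.factorization p with hc
  have hcp : ∀ n : ℕ, ∀ p ∈ n.primeFactors \ S, p.Prime := fun n p hp =>
    Nat.prime_of_mem_primeFactors (Finset.mem_sdiff.1 hp).1
  have hc0 : ∀ n : ℕ, 0 < c n := fun n => prod_pos' (hcp n) _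
  have hcop : ∀ n : ℕ, Nat.Coprime m (c n) := by
    intro n
    apply Nat.Coprime.prod_right
    intro p hp
    exact (cop_prod hS w (hcp n p hp) (Finset.mem_sdiff.1 hp).2 _).symm
  have hev : ∀ᶠ n in (U : Filter ℕ), n = m * c n := by
    have h1 : ∀ᶠ n in (U : Filter ℕ), ∀ p ∈ S, n.factorization p = w p :=
      (Finset.eventually_all _).2 fun p hp => hw p (hS p hp)
    filter_upwards [h1, hUX] with n hn hX
    have hsub : S ⊆ n.primeFactors := by
      intro p hp
      rw [← Nat.support_factorization, Finsupp.mem_support_iff, hn p hp]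
      exact ((hSmem p).1 hp).2
    have h2 : n = ∏ p ∈ n.primeFactors, p ^ n.factorization p := by
      conv_lhs => rw [← Nat.prod_factorization_pow_eq_self hX.1.ne']
      rw [Finsupp.prod, Nat.support_factorization]
    have h3 : ∏ p ∈ S, p ^ n.factorization p = m :=
      Finset.prod_congr rfl fun p hp => by rw [hn p hp]
    calc n = ∏ p ∈ n.primeFactors, p ^ n.factorization p := h2
      _ = (∏ p ∈ n.primeFactors \ S, p ^ n.factorization p) * ∏ p ∈ S, p ^ n.factorization p :=
        (Finset.prod_sdiff hsub).symm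
      _ = _ := by rw [h3, mul_comm]
  have hc1 : ∀ᶠ n in (U : Filter ℕ), 1 < c n := by
    have h1 : ∀ᶠ n in (U : Filter ℕ), n ≠ m := hUcof (by simp)
    filter_upwards [hev, h1] with n hn hn'
    have := hc0 n
    by_contra hle
    have : c n = 1 := by omega
    rw [this, mul_one] at hn
    exact hn' hn
  -- the primes of c(n) tend to infinity
  have hbig : ∀ K : ℕ, ∀ᶠ n in (U : Filter ℕ), ∀ q ∈ n.primeFactors \ S, K < q := by
    intro K
    have h1 : ∀ᶠ n in (U : Filter ℕ), ∀ p ∈ (Finset.range (K + 1)).filter Nat.Prime,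
        n.factorization p = w p :=
      (Finset.eventually_all _).2 fun p hp => hw p (Finset.mem_filter.1 hp).2
    filter_upwards [h1] with n hn
    intro q hq
    by_contra hle
    have hqp := hcp n q hq
    have h2 := hn q (Finset.mem_filter.2 ⟨Finset.mem_range.2 (by omega), hqp⟩)
    have h3 : n.factorization q ≠ 0 := by
      have := (Finset.mem_sdiff.1 hq).1
      rw [← Nat.support_factorization, Finsupp.mem_support_iff] at this
      exact this
    rw [h2] at h3
    exact (Finset.mem_sdiff.1 hq).2 ((hSmem q).2 ⟨hqp, h3⟩)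
  have hpf : ∀ n : ℕ, (c n).primeFactors ⊆ n.primeFactors \ S := by
    intro n q hq
    have hqp := Nat.prime_of_mem_primeFactors hq
    have hd := Nat.dvd_of_mem_primeFactors hq
    obtain ⟨p, hp, hdp⟩ := (hqp.prime.dvd_finsetProd_iff _).1 hd
    have := (Nat.prime_dvd_prime_iff_eq hqp (hcp n p hp)).1 (hqp.dvd_of_dvd_pow hdp)
    rw [this]; exact hp
  have hMle : ∀ K : ℕ, 1 ≤ K → ∀ᶠ n in (U : Filter ℕ), fM (c n) ≤ (1 + 1 / (K : ℝ)) ^ r := by
    intro K hK
    filter_upwards [hbig K, hUX] with n hn hX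
    rw [fM_prod _ (hc0 n)]
    have hK0 : (0 : ℝ) < K := by exact_mod_cast hK
    have h1 : ∏ q ∈ (c n).primeFactors, ((q : ℝ) / (q - 1)) ≤
        ∏ q ∈ (c n).primeFactors, (1 + 1 / (K : ℝ)) := by
      apply Finset.prod_le_prod
      · intro q hq
        have : (K : ℝ) + 1 ≤ q := by exact_mod_cast hn q (hpf n hq)
        apply div_nonneg <;> linarith
      · intro q hq
        have hq1 : (K : ℝ) + 1 ≤ q := by exact_mod_cast hn q (hpf n hq)
        rw [div_le_iff₀ (by linarith)]
        have : (1 + 1 / (K : ℝ)) * (q - 1) = (q - 1) + (q - 1) / K := by ring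
        rw [this]
        have : 1 ≤ ((q : ℝ) - 1) / K := by rw [le_div_iff₀ hK0]; linarith
        linarith
    refine le_trans h1 ?_
    rw [Finset.prod_const]
    apply pow_le_pow_right₀
    · have : 0 ≤ 1 / (K : ℝ) := by positivity
      linarith
    · exact le_trans (Finset.card_le_card (hpf n))
        (le_trans (Finset.card_le_card Finset.sdiff_subset) hX.2.2.1)
  have hM1 : Tendsto (fun n => fM (c n)) (U : Filter ℕ) (𝓝 1) := by
    have hK : Tendsto (fun K : ℕ => (1 + 1 / (K : ℝ)) ^ r) atTop (𝓝 1) := by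
      have h1 : Tendsto (fun K : ℕ => 1 + 1 / (K : ℝ)) atTop (𝓝 (1 + 0)) :=
        tendsto_const_nhds.add tendsto_one_div_atTop_nhds_zero_nat
      have := h1.pow r
      simpa using this
    rw [tendsto_order]
    constructor
    · intro a ha
      exact Eventually.of_forall fun n => lt_of_lt_of_le ha (compare (c n) (hc0 n)).2.2.2.1
    · intro a ha
      obtain ⟨K, hK1, hK2⟩ := ((hK.eventually (gt_mem_nhds ha)).and (eventually_ge_atTop 1)).exists
      filter_upwards [hMle K hK2] with n hn
      linarith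
  have hA1 : Tendsto (fun n => fA (c n)) (U : Filter ℕ) (𝓝 1) := by
    apply tendsto_of_tendsto_of_tendsto_of_le_of_le tendsto_const_nhds hM1
    · intro n; exact (compare (c n) (hc0 n)).2.2.2.2.1
    · intro n
      obtain ⟨b0, b1, -, m1, -, -, c1, -⟩ := compare (c n) (hc0 n)
      have : (1 - fB (c n)) * fM (c n) + fB (c n) ≤ fM (c n) := by nlinarith
      exact le_trans c1 this
  have hR1 : Tendsto (fun n => fR (c n)) (U : Filter ℕ) (𝓝 1) := by
    apply tendsto_of_tendsto_of_tendsto_of_le_of_le' tendsto_const_nhds hM1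
    · filter_upwards [hc1] with n hn
      exact (fR_gt hn).le
    · exact Eventually.of_forall fun n => fR_le _ (hc0 n)
  have hsum : ∀ᶠ n in (U : Filter ℕ), fA m * fA (c n) + fB m * fB (c n) = 2 := by
    filter_upwards [hev, hUX] with n hn hX
    have hE := (EQ_iff hX.1).1 hX.2.1
    rw [hn, fA_mul (hcop n), fB_mul (hcop n)] at hE
    exact hE
  have hAm : 0 < fA m := lt_of_lt_of_le one_pos (compare m hm0).2.2.2.2.1
  have hBm := fB_pos hm0
  by_cases ht : Tendsto (fun n => (c n).divisors.card) (U : Filter ℕ) atTop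
  · -- B(c) tends to 0
    have hB0 : Tendsto (fun n => fB (c n)) (U : Filter ℕ) (𝓝 0) := by
      have h1 : Tendsto (fun n => fR (c n) / ((c n).divisors.card : ℝ)) (U : Filter ℕ) (𝓝 0) :=
        hR1.div_atTop (tendsto_natCast_atTop_atTop.comp ht)
      refine h1.congr fun n => ?_
      rw [fB_R (hc0 n)]
    have hlim : Tendsto (fun n => fA m * fA (c n) + fB m * fB (c n)) (U : Filter ℕ)
        (𝓝 (fA m * 1 + fB m * 0)) := (hA1.const_mul _).add (hB0.const_mul _)
    have hlim2 : Tendsto (fun n => fA m * fA (c n) + fB m * fB (c n)) (U : Filter ℕ) (𝓝 2) :=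
      tendsto_const_nhds.congr' (by filter_upwards [hsum] with n hn; exact hn.symm)
    have h2 := tendsto_nhds_unique hlim hlim2
    obtain ⟨n, hn, hn1⟩ := (hsum.and hc1).exists
    have h3 := (compare (c n) (hc0 n)).2.2.2.2.2.1 hn1
    have h4 := fB_pos (hc0 n)
    nlinarith [mul_pos hBm h4, mul_lt_mul_of_pos_left h3 hAm]
  · rw [tendsto_atTop] at ht
    push Not at ht
    obtain ⟨N, hN⟩ := ht
    obtain ⟨t, ht⟩ := ultra_const U (fun n => (c n).divisors.card) N hN
    have ht0 : (0 : ℝ) < t := by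
      obtain ⟨n, hn⟩ := ht.exists
      have := card_pos' (hc0 n)
      rw [← hn]
      exact_mod_cast this
    have hBt : Tendsto (fun n => fB (c n)) (U : Filter ℕ) (𝓝 (1 / (t : ℝ))) := by
      have h1 : Tendsto (fun n => fR (c n) / (t : ℝ)) (U : Filter ℕ) (𝓝 (1 / t)) := hR1.div_const _
      refine h1.congr' ?_
      filter_upwards [ht] with n hn
      rw [fB_R (hc0 n), hn]
    have hlim : Tendsto (fun n => fA m * fA (c n) + fB m * fB (c n)) (U : Filter ℕ)
        (𝓝 (fA m * 1 + fB m * (1 / t))) := (hA1.const_mul _).add (hBt.const_mul _)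
    have hlim2 : Tendsto (fun n => fA m * fA (c n) + fB m * fB (c n)) (U : Filter ℕ) (𝓝 2) :=
      tendsto_const_nhds.congr' (by filter_upwards [hsum] with n hn; exact hn.symm)
    have h2 := tendsto_nhds_unique hlim hlim2
    obtain ⟨n, ⟨hn, hn1⟩, hnt⟩ := ((hsum.and hc1).and ht).exists
    have h3 := (compare (c n) (hc0 n)).2.2.2.2.2.1 hn1
    have h4 : 1 / (t : ℝ) < fB (c n) := by
      rw [fB_R (hc0 n), hnt]
      exact div_lt_div_of_pos_right (fR_gt hn1) ht0
    nlinarith [mul_lt_mul_of_pos_left h4 hBm, mul_lt_mul_of_pos_left h3 hAm]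

end Pool.Agent.OTW
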