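import Pool.Agent.OTW.Law

set_option autoImplicit false

/-!
# The two sides compared through `n / φ(n)` and the largest prime factor
-/

namespace Pool.Agent.OTW

open ArithmeticFunction Finset Pool.Agent.AS

/-- `A(n) = F(n) / (n τ(n))` -/
noncomputable def fA (n : ℕ) : ℝ := (FF n : ℝ) / (n * n.divisors.card)
/-- `B(n) = σ(n) / (n τ(n))` -/
noncomputable def fB (n : ℕ) : ℝ := (sigma 1 n : ℝ) / (n * n.divisors.card)
/-- `M(n) = n / φ(n)` -/
noncomputable def fM (n : ℕ) : ℝ := (n : ℝ) / n.totient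

lemma fA_mul {a b : ℕ} (h : Nat.Coprime a b) : fA (a * b) = fA a * fA b := by
  unfold fA
  rw [FF_mult.map_mul_of_coprime h, h.card_divisors_mul]
  push_cast
  rw [div_mul_div_comm]
  congr 1
  ring

lemma fB_mul {a b : ℕ} (h : Nat.Coprime a b) : fB (a * b) = fB a * fB b := by
  unfold fB
  rw [isMultiplicative_sigma.map_mul_of_coprime h, h.card_divisors_mul]
  push_cast
  rw [div_mul_div_comm]
  congr 1
  ring

lemma fM_mul {a b : ℕ} (h : Nat.Coprime a b) : fM (a * b) = fM a * fM b := by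
  unfold fM
  rw [Nat.totient_mul h]
  push_cast
  rw [div_mul_div_comm]

lemma fA_one : fA 1 = 1 := by
  unfold fA; rw [FF_apply]; simp
lemma fB_one : fB 1 = 1 := by
  unfold fB; simp
lemma fM_one : fM 1 = 1 := by
  unfold fM; simp

lemma fA_pp {p : ℕ} (hp : p.Prime) (e : ℕ) : fA (p ^ e) = (TT p (e + 1) : ℝ) / ((p : ℝ) ^ e * (e + 1)) := by
  unfold fA
  rw [FF_prime_pow hp, Nat.divisors_prime_pow hp, Finset.card_map, Finset.card_range]
  push_cast
  rfl

lemma fB_pp {p : ℕ} (hp : p.Prime) (e : ℕ) : fB (p ^ e) = (GG p (e + 1) : ℝ) / ((p : ℝ) ^ e * (e + 1)) := by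
  unfold fB
  rw [sigma_prime_pow hp, Nat.divisors_prime_pow hp, Finset.card_map, Finset.card_range]
  push_cast
  rfl

lemma fM_pp {p : ℕ} (hp : p.Prime) {e : ℕ} (he : 0 < e) : fM (p ^ e) = (p : ℝ) / (p - 1) := by
  unfold fM
  rw [Nat.totient_prime_pow hp he]
  obtain ⟨k, rfl⟩ : ∃ k, e = k + 1 := ⟨e - 1, by omega⟩
  have hp0 : (0 : ℝ) < p := by exact_mod_cast hp.pos
  have hp1 : (1 : ℝ) < p := by exact_mod_cast hp.one_lt
  have hp1' : ((p - 1 : ℕ) : ℝ) = (p : ℝ) - 1 := by
    rw [Nat.cast_sub hp.one_le]; simp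
  rw [Nat.add_sub_cancel]
  push_cast
  rw [hp1', pow_succ]
  have : (p : ℝ) - 1 ≠ 0 := by linarith
  field_simp

/-- the linear relation for `A` and `B` -/
lemma lin {p : ℕ} (hp : p.Prime) (e : ℕ) : ((p : ℝ) - 1) * fA (p ^ e) + fB (p ^ e) = p := by
  rw [fA_pp hp, fB_pp hp]
  have h := law p (e + 1)
  have h' : ((p : ℝ) - 1) * TT p (e + 1) + GG p (e + 1) = ((e + 1 : ℕ) : ℝ) * (p : ℝ) ^ (e + 1) := by
    exact_mod_cast h
  have hp0 : (0 : ℝ) < p := by exact_mod_cast hp.pos
  rw [← mul_div_assoc, ← add_div, h']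
  push_cast
  rw [pow_succ]
  field_simp

lemma fB_pos {n : ℕ} (hn : 0 < n) : 0 < fB n := by
  unfold fB
  have h1 : (0 : ℝ) < sigma 1 n := by exact_mod_cast sig_pos hn
  have h2 : (0 : ℝ) < n.divisors.card := by exact_mod_cast card_pos' hn
  have h3 : (0 : ℝ) < n := by exact_mod_cast hn
  positivity

lemma fB_lt {p e : ℕ} (hp : p.Prime) (he : 0 < e) : fB (p ^ e) < 1 := by
  rw [fB_pp hp, div_lt_one (by have : (0:ℝ) < p := by exact_mod_cast hp.pos
                               positivity)]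
  have : GG p (e + 1) < p ^ e * (e + 1) := by
    unfold GG
    have h1 : ∑ j ∈ range (e + 1), p ^ j < ∑ j ∈ range (e + 1), p ^ e := by
      apply Finset.sum_lt_sum
      · intro j hj
        exact Nat.pow_le_pow_right hp.pos (by have := Finset.mem_range.1 hj; omega)
      · exact ⟨0, by simp, Nat.pow_lt_pow_right hp.one_lt he⟩
    simpa [mul_comm] using h1
  exact_mod_cast this

/-- the two comparisons, for all `n ≥ 1` whose prime factors are at most `P` -/
theorem compare (n : ℕ) : 0 < n → (0 < fB n ∧ fB n ≤ 1 ∧ (1 < n → fB n < 1) ∧ 1 ≤ fM n ∧ 1 ≤ fA n ∧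
    (1 < n → 1 < fA n) ∧
    fA n ≤ (1 - fB n) * fM n + fB n ∧
    ∀ P : ℝ, (∀ p ∈ n.primeFactors, (p : ℝ) ≤ P) → 1 - fB n ≤ (P - 1) * (fA n - 1)) := by
  induction n using Nat.recOnPosPrimePosCoprime with
  | zero => intro h; omega
  | one =>
    intro _
    rw [fA_one, fB_one, fM_one]
    refine ⟨by norm_num, by norm_num, by omega, by norm_num, by norm_num, by omega, by norm_num, ?_⟩
    intro P _
    norm_num
  | prime_pow p e hp he =>
    intro _
    have hp1 : (1 : ℝ) < p := by exact_mod_cast hp.one_lt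
    have hl := lin hp e
    have hB := fB_pos (pow_pos hp.pos e)
    have hB1 := fB_lt hp he
    have hM := fM_pp hp he
    have hA : fA (p ^ e) = (p - fB (p ^ e)) / (p - 1) := by
      rw [eq_div_iff (by linarith)]
      linarith
    have hA1 : 1 < fA (p ^ e) := by
      rw [hA, lt_div_iff₀ (by linarith)]
      linarith
    refine ⟨hB, hB1.le, fun _ => hB1, ?_, hA1.le, fun _ => hA1, ?_, ?_⟩
    · rw [hM, le_div_iff₀ (by linarith)]
      linarith
    · rw [hM, hA]
      apply le_of_eq
      have : (p : ℝ) - 1 ≠ 0 := by linarith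
      field_simp
      ring
    · intro P hP
      have hpP : (p : ℝ) ≤ P := hP p (by
        rw [Nat.primeFactors_prime_pow he.ne' hp]; simp)
      have : 1 - fB (p ^ e) = ((p : ℝ) - 1) * (fA (p ^ e) - 1) := by linarith
      rw [this]
      exact mul_le_mul_of_nonneg_right (by linarith) (by linarith)
  | coprime a b ha hb hab iha ihb =>
    intro _
    obtain ⟨b0, b1, b1', m1, a1, a1', c1, d1⟩ := iha (by omega)
    obtain ⟨b2, b3, b3', m2, a2, a2', c2, d2⟩ := ihb (by omega)
    have b1'' := b1' ha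
    have b3'' := b3' hb
    have a1'' := a1' ha
    have a2'' := a2' hb
    rw [fA_mul hab, fB_mul hab, fM_mul hab]
    have hlt : fB a * fB b < 1 := by nlinarith
    have hA2 : 1 < fA a * fA b := by nlinarith
    refine ⟨mul_pos b0 b2, hlt.le, fun _ => hlt, by nlinarith, hA2.le, fun _ => hA2, ?_, ?_⟩
    · have h1 : fA a * fA b ≤ ((1 - fB a) * fM a + fB a) * ((1 - fB b) * fM b + fB b) :=
        mul_le_mul c1 c2 (by linarith) (by
          have : 0 ≤ (1 - fB a) * fM a := mul_nonneg (by linarith) (by linarith)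
          linarith)
      have h2 : 0 ≤ (1 - fB a) * fB b * fM a * (fM b - 1) := by
        apply mul_nonneg (mul_nonneg (mul_nonneg (by linarith) b2.le) (by linarith)) (by linarith)
      have h3 : 0 ≤ fB a * (1 - fB b) * fM b * (fM a - 1) := by
        apply mul_nonneg (mul_nonneg (mul_nonneg b0.le (by linarith)) (by linarith)) (by linarith)
      linarith [h1, h2, h3]
    · intro P hP
      have hPa : ∀ p ∈ a.primeFactors, (p : ℝ) ≤ P := fun p hp => hP p (by
        rw [Nat.Coprime.primeFactors_mul hab]; exact Finset.mem_union_left _ hp)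
      have hPb : ∀ p ∈ b.primeFactors, (p : ℝ) ≤ P := fun p hp => hP p (by
        rw [Nat.Coprime.primeFactors_mul hab]; exact Finset.mem_union_right _ hp)
      have e1 := d1 P hPa
      have e2 := d2 P hPb
      have hP1 : 0 ≤ P - 1 := by
        by_contra hneg
        have : (P - 1) * (fA a - 1) < 0 := mul_neg_of_neg_of_pos (by linarith) (by linarith)
        linarith
      have h4 : 0 ≤ (1 - fB a) * (1 - fB b) := mul_nonneg (by linarith) (by linarith)
      have h5 : (P - 1) * ((fA a - 1) + (fA b - 1)) ≤ (P - 1) * (fA a * fA b - 1) := by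
        apply mul_le_mul_of_nonneg_left _ hP1
        nlinarith
      linarith

/-- the equation in terms of `A` and `B` -/
lemma EQ_iff {n : ℕ} (hn : 0 < n) : EQ n ↔ fA n + fB n = 2 := by
  unfold EQ fA fB
  have h2 : (0 : ℝ) < n.divisors.card := by exact_mod_cast card_pos' hn
  have h3 : (0 : ℝ) < n := by exact_mod_cast hn
  rw [← add_div, div_eq_iff (by positivity)]
  constructor
  · intro h; exact_mod_cast h
  · intro h; exact_mod_cast h

lemma two_pow_of_totient {n : ℕ} (hn : 0 < n) (h : 2 * n.totient = n) : ∃ k, n = 2 ^ k := by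
  obtain ⟨k, m, hm, rfl⟩ := Nat.exists_eq_two_pow_mul_odd hn.ne'
  have hc : Nat.Coprime (2 ^ k) m := (Nat.coprime_two_left.2 hm).pow_left k
  rcases Nat.eq_zero_or_pos k with rfl | hk
  · exfalso
    rw [pow_zero, one_mul] at h
    obtain ⟨c, hc⟩ := hm
    omega
  · refine ⟨k, ?_⟩
    rw [Nat.totient_mul hc, Nat.totient_prime_pow Nat.prime_two hk] at h
    obtain ⟨j, rfl⟩ : ∃ j, k = j + 1 := ⟨k - 1, by omega⟩
    rw [Nat.add_sub_cancel] at h
    have h1 : 2 ^ (j + 1) * m.totient = 2 ^ (j + 1) * m := by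
      rw [← h, pow_succ]; ring
    have h2 : m.totient = m := Nat.eq_of_mul_eq_mul_left (by positivity) h1
    rcases Nat.lt_or_ge 1 m with h3 | h3
    · have := Nat.totient_lt m h3
      omega
    · have : m = 1 := by
        obtain ⟨c, hc⟩ := hm
        omega
      rw [this, mul_one]

lemma EQ_two_pow (k : ℕ) : EQ (2 ^ k) := by
  rw [EQ_iff (by positivity)]
  have h := lin Nat.prime_two k
  push_cast at h
  linarith

/-- `F(n) + σ(n) ≤ 2 n τ(n)` if `n ≤ 2 φ(n)` -/
theorem le_of_totient {n : ℕ} (hn : 0 < n) (h : n ≤ 2 * n.totient) :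
    FF n + sigma 1 n ≤ 2 * (n * n.divisors.card) := by
  obtain ⟨b0, b1, -, m1, a1, -, c1, -⟩ := compare n hn
  have hM : fM n ≤ 2 := by
    unfold fM
    have : 0 < n.totient := Nat.totient_pos.2 hn
    rw [div_le_iff₀ (by exact_mod_cast this)]
    exact_mod_cast h
  have h1 : fA n + fB n ≤ 2 := by nlinarith
  unfold fA fB at h1
  have h2 : (0 : ℝ) < n.divisors.card := by exact_mod_cast card_pos' hn
  have h3 : (0 : ℝ) < n := by exact_mod_cast hn
  rw [← add_div, div_le_iff₀ (by positivity)] at h1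
  exact_mod_cast h1

/-- a solution with `n ≤ 2 φ(n)` is a power of two -/
theorem two_pow_of_EQ {n : ℕ} (hn : 0 < n) (h : n ≤ 2 * n.totient) (hE : EQ n) : ∃ k, n = 2 ^ k := by
  obtain ⟨b0, b1, b1', m1, a1, -, c1, -⟩ := compare n hn
  rcases Nat.lt_or_ge 1 n with h1 | h1
  · have hb := b1' h1
    rw [EQ_iff hn] at hE
    have hM : 2 ≤ fM n := by
      by_contra hlt
      have : (1 - fB n) * fM n < (1 - fB n) * 2 := mul_lt_mul_of_pos_left (by linarith) (by linarith)
      linarith
    apply two_pow_of_totient hn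
    unfold fM at hM
    have ht : 0 < n.totient := Nat.totient_pos.2 hn
    rw [le_div_iff₀ (by exact_mod_cast ht)] at hM
    have : 2 * n.totient ≤ n := by exact_mod_cast hM
    omega
  · exact ⟨0, by simp; omega⟩

/-- the conditions on `n = 2 ^ a m` -/
theorem odd_part {a m : ℕ} (hm : Odd m) (hm1 : 1 < m) (hE : EQ (2 ^ a * m)) :
    (a + 2) * m.totient < (a + 1) * m ∧
      ∀ P : ℕ, (∀ p ∈ m.primeFactors, p ≤ P) → a + 2 ≤ P := by
  have hc : Nat.Coprime (2 ^ a) m := (Nat.coprime_two_left.2 hm).pow_left a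
  have hm0 : 0 < m := by omega
  rw [EQ_iff (by positivity), fA_mul hc, fB_mul hc] at hE
  obtain ⟨b0, b1, b1', m1, a1, a1', c1, d1⟩ := compare m hm0
  have hb := b1' hm1
  have ha := a1' hm1
  have h2 := lin Nat.prime_two a
  push_cast at h2
  have hB2 : fB (2 ^ a) = (2 ^ (a + 1) - 1) / (2 ^ a * (a + 1)) := by
    have := fB_pp Nat.prime_two a
    rw [this]
    congr 1
    have hg : GG 2 (a + 1) + 1 = 2 ^ (a + 1) := by
      unfold GG
      have := Nat.geomSum_eq (m := 2) (le_refl 2) (a + 1)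
      rw [this]
      have : 0 < 2 ^ (a + 1) := by positivity
      simp
      omega
    have : (GG 2 (a + 1) : ℝ) + 1 = 2 ^ (a + 1) := by exact_mod_cast hg
    linarith
  set β := fB (2 ^ a) with hβ
  have hA2 : fA (2 ^ a) = 2 - β := by linarith
  rw [hA2] at hE
  -- (2 - β) (A - 1) = β (1 - B)
  have hrel : (2 - β) * (fA m - 1) = β * (1 - fB m) := by linarith
  have hβ0 : 0 < β := fB_pos (by positivity)
  -- β < 2 / (a + 1)
  have hβ1 : β * (a + 1) < 2 := by
    rw [hB2, div_mul_eq_mul_div, div_lt_iff₀ (by positivity)]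
    have : (0 : ℝ) < 2 ^ a := by positivity
    have e1 : (2 : ℝ) ^ (a + 1) = 2 * 2 ^ a := by rw [pow_succ]; ring
    rw [e1]
    have h0 : (0 : ℝ) < (a : ℝ) + 1 := by positivity
    nlinarith
  -- 2 ≤ β (a + 2)
  have hβ2 : 2 ≤ β * (a + 2) := by
    rw [hB2, div_mul_eq_mul_div, le_div_iff₀ (by positivity)]
    have e1 : (2 : ℝ) ^ (a + 1) = 2 * 2 ^ a := by rw [pow_succ]; ring
    rw [e1]
    have h4 : a + 2 ≤ 2 * 2 ^ a := by
      have := Nat.lt_two_pow_self (n := a + 1)
      rw [pow_succ] at this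
      omega
    have h5 : (a : ℝ) + 2 ≤ 2 * 2 ^ a := by exact_mod_cast h4
    nlinarith
  constructor
  · -- B (1 - B) ≤ A (1 - B) (M - 1)
    have h5 : fA m - 1 ≤ (1 - fB m) * (fM m - 1) := by linarith
    have h2β : 0 < 2 - β := by
      have ha1 : (1 : ℝ) ≤ (a : ℝ) + 1 := by
        have : (0 : ℝ) ≤ a := Nat.cast_nonneg a
        linarith
      nlinarith
    have h6 : β * (1 - fB m) ≤ (2 - β) * ((1 - fB m) * (fM m - 1)) := by
      rw [← hrel]
      exact mul_le_mul_of_nonneg_left h5 h2β.le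
    have h7 : β ≤ (2 - β) * (fM m - 1) := by
      have h8 : (1 - fB m) * β ≤ (1 - fB m) * ((2 - β) * (fM m - 1)) := by linarith
      exact le_of_mul_le_mul_left h8 (by linarith)
    -- so 2 ≤ (2 - β) M
    have h9 : 2 ≤ (2 - β) * fM m := by linarith
    unfold fM at h9
    have ht : 0 < m.totient := Nat.totient_pos.2 hm0
    have ht' : (0 : ℝ) < m.totient := by exact_mod_cast ht
    rw [← mul_div_assoc, le_div_iff₀ ht'] at h9
    -- 2 φ ≤ (2 - β) m
    have hm' : (0 : ℝ) < m := by exact_mod_cast hm0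
    have h10 : (2 - β) * (a + 2) ≤ 2 * (a + 1) := by linarith
    have h11 : 2 * ((a : ℝ) + 2) * m.totient ≤ 2 * (a + 1) * m := by nlinarith
    have h12 : (a + 2) * m.totient ≤ (a + 1) * m := by
      have : ((a : ℝ) + 2) * m.totient ≤ (a + 1) * m := by linarith
      exact_mod_cast this
    refine lt_of_le_of_ne h12 ?_
    intro heq
    -- equality: then β (a + 2) = 2
    have heq' : ((a : ℝ) + 2) * m.totient = (a + 1) * m := by exact_mod_cast heq
    have h13 : (2 - β) * (a + 2) = 2 * (a + 1) := by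
      apply le_antisymm h10
      have : 2 * ((a : ℝ) + 1) * m ≤ (2 - β) * (a + 2) * m := by nlinarith
      exact le_of_mul_le_mul_right this hm'
    have h14 : β * (a + 2) = 2 := by linarith
    rw [hB2, div_mul_eq_mul_div, div_eq_iff (by positivity)] at h14
    have e1 : (2 : ℝ) ^ (a + 1) = 2 * 2 ^ a := by rw [pow_succ]; ring
    rw [e1] at h14
    have h15 : (a : ℝ) + 2 = 2 * 2 ^ a := by linarith
    have h16 : a + 2 = 2 * 2 ^ a := by exact_mod_cast h15
    -- only a = 0
    have ha0 : a = 0 := by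
      by_contra hne
      obtain ⟨b, rfl⟩ : ∃ b, a = b + 1 := ⟨a - 1, by omega⟩
      have := Nat.lt_two_pow_self (n := b + 1)
      omega
    subst ha0
    simp at heq
    obtain ⟨c, hc'⟩ := hm
    omega
  · intro P hP
    have h5 := d1 (P : ℝ) (fun p hp => by exact_mod_cast hP p hp)
    have h6 : (2 - β) * (fA m - 1) ≤ β * ((P - 1) * (fA m - 1)) := by
      rw [hrel]
      exact mul_le_mul_of_nonneg_left h5 hβ0.le
    have h7 : 2 - β ≤ β * (P - 1) := by
      have h8 : (fA m - 1) * (2 - β) ≤ (fA m - 1) * (β * (P - 1)) := by linarith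
      exact le_of_mul_le_mul_left h8 (by linarith)
    have h8 : 2 ≤ β * P := by linarith
    have h9 : (a : ℝ) + 1 < P := by
      by_contra hle
      have : β * P ≤ β * (a + 1) := mul_le_mul_of_nonneg_left (by linarith) hβ0.le
      linarith
    have : a + 1 < P := by exact_mod_cast h9
    omega

end Pool.Agent.OTW
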