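import Pool.Agent.OTW.Grun

set_option autoImplicit false

/-!
# Solutions with given prime factors: finitely many outside the towers
-/

namespace Pool.Agent.OTW

open ArithmeticFunction Finset Pool.Agent.AS Filter Topology

lemma GG_le {p : ℕ} (hp : 2 ≤ p) (e : ℕ) : GG p (e + 1) ≤ 2 * p ^ e := by
  induction e with
  | zero => simp [GG]
  | succ e ih =>
    rw [GG_succ]
    have : p ^ (e + 1) = p * p ^ e := by rw [pow_succ]; ring
    nlinarith [Nat.mul_le_mul_right (p ^ e) hp]

lemma fB_le {p : ℕ} (hp : p.Prime) (e : ℕ) : fB (p ^ e) ≤ 2 / ((e : ℝ) + 1) := by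
  rw [fB_pp hp]
  have h : (GG p (e + 1) : ℝ) ≤ 2 * (p : ℝ) ^ e := by exact_mod_cast GG_le hp.two_le e
  have hp0 : (0 : ℝ) < (p : ℝ) ^ e := by
    have : (0 : ℝ) < p := by exact_mod_cast hp.pos
    positivity
  have he : (0 : ℝ) < (e : ℝ) + 1 := by positivity
  rw [div_le_div_iff₀ (by positivity) he]
  nlinarith

lemma fB_tendsto {p : ℕ} (hp : p.Prime) : Tendsto (fun e : ℕ => fB (p ^ e)) atTop (𝓝 0) := by
  have h1 : Tendsto (fun e : ℕ => 2 / ((e : ℝ) + 1)) atTop (𝓝 0) := by
    apply Tendsto.div_atTop tendsto_const_nhds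
    exact tendsto_atTop_add_const_right _ _ tendsto_natCast_atTop_atTop
  exact squeeze_zero (fun e => (fB_pos (pow_pos hp.pos e)).le) (fun e => fB_le hp e) h1

lemma fB_le_one {p : ℕ} (hp : p.Prime) (e : ℕ) : fB (p ^ e) ≤ 1 :=
  (compare (p ^ e) (pow_pos hp.pos e)).2.1

lemma fA_formula {p : ℕ} (hp : p.Prime) (e : ℕ) :
    fA (p ^ e) = (p : ℝ) / (p - 1) * (1 - fB (p ^ e) / p) := by
  have h := lin hp e
  have hp1 : (1 : ℝ) < p := by exact_mod_cast hp.one_lt
  have h1 : (p : ℝ) - 1 ≠ 0 := by linarith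
  have h0 : (p : ℝ) ≠ 0 := by linarith
  have : fA (p ^ e) = (p - fB (p ^ e)) / (p - 1) := by
    rw [eq_div_iff h1]; linarith
  rw [this]
  field_simp

lemma cop_prod {S : Finset ℕ} (hS : ∀ p ∈ S, p.Prime) (v : ℕ → ℕ) {q : ℕ} (hq : q.Prime)
    (hqS : q ∉ S) (k : ℕ) : Nat.Coprime (q ^ k) (∏ p ∈ S, p ^ v p) := by
  apply Nat.Coprime.prod_right
  intro p hp
  apply Nat.Coprime.pow
  rw [Nat.coprime_primes hq (hS p hp)]
  rintro rfl
  exact hqS hp

lemma prod_pos' {S : Finset ℕ} (hS : ∀ p ∈ S, p.Prime) (v : ℕ → ℕ) : 0 < ∏ p ∈ S, p ^ v p :=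
  Finset.prod_pos fun p hp => pow_pos (hS p hp).pos _

lemma fA_prod {S : Finset ℕ} (hS : ∀ p ∈ S, p.Prime) (v : ℕ → ℕ) :
    fA (∏ p ∈ S, p ^ v p) = ∏ p ∈ S, fA (p ^ v p) := by
  induction S using Finset.induction_on with
  | empty => simp [fA_one]
  | insert q S hq ih =>
    have hS' : ∀ p ∈ S, p.Prime := fun p hp => hS p (by simp [hp])
    rw [Finset.prod_insert hq, Finset.prod_insert hq,
      fA_mul (cop_prod hS' v (hS q (by simp)) hq _), ih hS']

lemma fB_prod {S : Finset ℕ} (hS : ∀ p ∈ S, p.Prime) (v : ℕ → ℕ) :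
    fB (∏ p ∈ S, p ^ v p) = ∏ p ∈ S, fB (p ^ v p) := by
  induction S using Finset.induction_on with
  | empty => simp [fB_one]
  | insert q S hq ih =>
    have hS' : ∀ p ∈ S, p.Prime := fun p hp => hS p (by simp [hp])
    rw [Finset.prod_insert hq, Finset.prod_insert hq,
      fB_mul (cop_prod hS' v (hS q (by simp)) hq _), ih hS']

/-- the solutions outside the towers with all prime factors at most `K` -/
def Out (K : ℕ) : Set ℕ := {n : ℕ | 0 < n ∧ EQ n ∧ (∀ p ∈ n.primeFactors, p ≤ K) ∧
  ¬ ∃ m p j : ℕ, Tower m p ∧ n = p ^ j * m}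

theorem finite_radical (K : ℕ) : (Out K).Finite := by
  classical
  by_contra hinf
  have hX : (Out K).Infinite := hinf
  set S : Finset ℕ := (Finset.range (K + 1)).filter Nat.Prime with hSdef
  have hS : ∀ p ∈ S, p.Prime := fun p hp => (Finset.mem_filter.1 hp).2
  have hne : (cofinite ⊓ 𝓟 (Out K)).NeBot := cofinite_inf_principal_neBot_iff.2 hX
  set U : Ultrafilter ℕ := Ultrafilter.of (cofinite ⊓ 𝓟 (Out K)) with hU
  have hUle : (U : Filter ℕ) ≤ cofinite ⊓ 𝓟 (Out K) := Ultrafilter.of_le _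
  have hUcof : (U : Filter ℕ) ≤ cofinite := le_trans hUle inf_le_left
  have hUX : ∀ᶠ n in (U : Filter ℕ), n ∈ Out K := by
    have : (U : Filter ℕ) ≤ 𝓟 (Out K) := le_trans hUle inf_le_right
    exact this (mem_principal_self _)
  set J : Finset ℕ := S.filter (fun p => Tendsto (fun n : ℕ => n.factorization p) (U : Filter ℕ) atTop)
    with hJ
  have hJS : J ⊆ S := Finset.filter_subset _ _
  have hJt : ∀ p ∈ J, Tendsto (fun n : ℕ => n.factorization p) (U : Filter ℕ) atTop :=
    fun p hp => (Finset.mem_filter.1 hp).2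
  have hw : ∀ p : ℕ, ∃ w : ℕ, p ∈ S \ J → ∀ᶠ n in (U : Filter ℕ), n.factorization p = w := by
    intro p
    by_cases hp : p ∈ S \ J
    · have hnt : ¬ Tendsto (fun n : ℕ => n.factorization p) (U : Filter ℕ) atTop := by
        intro ht
        exact (Finset.mem_sdiff.1 hp).2 (Finset.mem_filter.2 ⟨(Finset.mem_sdiff.1 hp).1, ht⟩)
      rw [tendsto_atTop] at hnt
      push Not at hnt
      obtain ⟨N, hN⟩ := hnt
      have hN' : ∀ᶠ n in (U : Filter ℕ), n.factorization p < N := hN
      have hex : ∀ᶠ n in (U : Filter ℕ), ∃ w ∈ Finset.range N, n.factorization p = w := by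
        filter_upwards [hN'] with n hn
        exact ⟨_, Finset.mem_range.2 hn, rfl⟩
      by_contra hcon
      push Not at hcon
      have hall : ∀ w ∈ Finset.range N, ∀ᶠ n in (U : Filter ℕ), n.factorization p ≠ w := by
        intro w _
        exact (hcon w).2
      have h2 : ∀ᶠ n in (U : Filter ℕ), ∀ w ∈ Finset.range N, n.factorization p ≠ w :=
        (Finset.eventually_all _).2 hall
      obtain ⟨n, hn1, hn2⟩ := (hex.and h2).exists
      obtain ⟨w, hw, he⟩ := hn1
      exact hn2 w hw he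
    · exact ⟨0, fun h => absurd h hp⟩
  choose w hw using hw
  set m : ℕ := ∏ p ∈ S \ J, p ^ w p with hm
  have hSJ : ∀ p ∈ S \ J, p.Prime := fun p hp => hS p (Finset.mem_sdiff.1 hp).1
  have hJp : ∀ p ∈ J, p.Prime := fun p hp => hS p (hJS hp)
  have hm0 : 0 < m := prod_pos' hSJ w
  have hev : ∀ᶠ n in (U : Filter ℕ), n = m * ∏ p ∈ J, p ^ n.factorization p := by
    have h1 : ∀ᶠ n in (U : Filter ℕ), ∀ p ∈ S \ J, n.factorization p = w p :=
      (Finset.eventually_all _).2 fun p hp => hw p hp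
    filter_upwards [h1, hUX] with n hn hX
    have hsub : n.primeFactors ⊆ S := by
      intro p hp
      exact Finset.mem_filter.2 ⟨Finset.mem_range.2 (by have := hX.2.2.1 p hp; omega),
        Nat.prime_of_mem_primeFactors hp⟩
    have h2 : n = ∏ p ∈ S, p ^ n.factorization p := by
      conv_lhs => rw [← Nat.prod_factorization_pow_eq_self hX.1.ne']
      rw [Finsupp.prod, Nat.support_factorization]
      apply Finset.prod_subset hsub
      intro p _ hp
      have : n.factorization p = 0 := by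
        rw [← Nat.support_factorization] at hp
        exact Finsupp.notMem_support_iff.1 hp
      rw [this, pow_zero]
    have h3 : ∏ p ∈ S \ J, p ^ n.factorization p = m :=
      Finset.prod_congr rfl fun p hp => by rw [hn p hp]
    calc n = ∏ p ∈ S, p ^ n.factorization p := h2
      _ = (∏ p ∈ S \ J, p ^ n.factorization p) * ∏ p ∈ J, p ^ n.factorization p :=
        (Finset.prod_sdiff hJS).symm
      _ = _ := by rw [h3]
  rcases Finset.eq_empty_or_nonempty J with hJ0 | hJne
  · -- all exponents constant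
    have h1 : ∀ᶠ n in (U : Filter ℕ), n ≠ m := hUcof (by simp)
    obtain ⟨n, hn, hn'⟩ := (hev.and h1).exists
    rw [hJ0, Finset.prod_empty, mul_one] at hn
    exact hn' hn
  obtain ⟨q, hq⟩ := hJne
  have hqp := hJp q hq
  by_cases hone : J = {q}
  · -- one exponent tends to infinity
    have hqm : ¬ q ∣ m := by
      have hc : Nat.Coprime (q ^ 1) m := cop_prod hSJ w hqp
        (fun h => (Finset.mem_sdiff.1 h).2 hq) 1
      rw [pow_one] at hc
      exact (Nat.Prime.coprime_iff_not_dvd hqp).1 hc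
    obtain ⟨n1, h1, h1X⟩ := (hev.and hUX).exists
    have hgt : ∀ᶠ n in (U : Filter ℕ), n1.factorization q + 1 ≤ n.factorization q :=
      (tendsto_atTop.1 (hJt q hq)) _
    obtain ⟨n2, ⟨h2, h2X⟩, h2g⟩ := ((hev.and hUX).and hgt).exists
    rw [hone, Finset.prod_singleton, mul_comm] at h1 h2
    have hT := tower_of_two hm0 hqp hqm (e := n1.factorization q) (f := n2.factorization q)
      (by omega) (by rw [← h1]; exact h1X.2.1) (by rw [← h2]; exact h2X.2.1)
    exact h1X.2.2.2 ⟨m, q, n1.factorization q, hT, h1⟩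
  · -- at least two exponents tend to infinity
    obtain ⟨r, hr, hrq⟩ : ∃ r ∈ J, r ≠ q := by
      by_contra hcon
      push Not at hcon
      exact hone (Finset.eq_singleton_iff_unique_mem.2 ⟨hq, hcon⟩)
    have hrp := hJp r hr
    set b : ℕ → ℕ → ℝ := fun p n => fB (p ^ n.factorization p) with hb
    have hb0 : ∀ p ∈ J, Tendsto (fun n => b p n) (U : Filter ℕ) (𝓝 0) := fun p hp =>
      (fB_tendsto (hJp p hp)).comp (hJt p hp)
    have hbpos : ∀ p ∈ J, ∀ n, 0 < b p n := fun p hp n => fB_pos (pow_pos (hJp p hp).pos _)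
    have hb1 : ∀ p ∈ J, ∀ n, b p n ≤ 1 := fun p hp n => fB_le_one (hJp p hp) _
    have hcopm : ∀ v : ℕ → ℕ, Nat.Coprime m (∏ p ∈ J, p ^ v p) := by
      intro v
      apply Nat.Coprime.prod_right
      intro p hp
      exact (cop_prod hSJ w (hJp p hp) (fun h => (Finset.mem_sdiff.1 h).2 hp) _).symm
    set C : ℝ := fA m * ∏ p ∈ J, ((p : ℝ) / (p - 1)) with hC
    have hAB : ∀ᶠ n in (U : Filter ℕ), C * ∏ p ∈ J, (1 - b p n / p) + fB m * ∏ p ∈ J, b p n = 2 := by
      filter_upwards [hev, hUX] with n hn hX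
      have hE := (EQ_iff hX.1).1 hX.2.1
      have eA : fA n = C * ∏ p ∈ J, (1 - b p n / p) := by
        have h1 : fA n = fA m * ∏ p ∈ J, fA (p ^ n.factorization p) := by
          conv_lhs => rw [hn]
          rw [fA_mul (hcopm _), fA_prod hJp]
        rw [h1, hC, mul_assoc, ← Finset.prod_mul_distrib]
        congr 1
        exact Finset.prod_congr rfl fun p hp => fA_formula (hJp p hp) _
      have eB : fB n = fB m * ∏ p ∈ J, b p n := by
        conv_lhs => rw [hn]
        rw [fB_mul (hcopm _), fB_prod hJp]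
      rw [← eA, ← eB]
      exact hE
    have hlim : Tendsto (fun n => C * ∏ p ∈ J, (1 - b p n / p) + fB m * ∏ p ∈ J, b p n)
        (U : Filter ℕ) (𝓝 (C * ∏ p ∈ J, (1 - (0 : ℝ) / p) + fB m * ∏ p ∈ J, (0 : ℝ))) := by
      apply Tendsto.add
      · apply Tendsto.const_mul
        apply tendsto_finsetProd
        intro p hp
        exact tendsto_const_nhds.sub ((hb0 p hp).div_const _)
      · apply Tendsto.const_mul
        apply tendsto_finsetProd
        intro p hp
        exact hb0 p hp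
    have hlim2 : Tendsto (fun n => C * ∏ p ∈ J, (1 - b p n / p) + fB m * ∏ p ∈ J, b p n)
        (U : Filter ℕ) (𝓝 2) := tendsto_const_nhds.congr' (by
          filter_upwards [hAB] with n hn
          exact hn.symm)
    have hC2 : C = 2 := by
      have := tendsto_nhds_unique hlim hlim2
      have hz : ∏ p ∈ J, (0 : ℝ) = 0 := Finset.prod_eq_zero hq rfl
      rw [hz, mul_zero, add_zero] at this
      simpa using this
    have hq1 : (1 : ℝ) < q := by exact_mod_cast hqp.one_lt
    have hsmall : ∀ᶠ n in (U : Filter ℕ), b r n < 1 / q :=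
      (hb0 r hr).eventually (gt_mem_nhds (by positivity))
    obtain ⟨n, hn, hns⟩ := (hAB.and hsmall).exists
    rw [hC2] at hn
    have hfac : ∀ p ∈ J, 0 ≤ 1 - b p n / p ∧ 1 - b p n / p ≤ 1 := by
      intro p hp
      have hp1 : (1 : ℝ) < p := by exact_mod_cast (hJp p hp).one_lt
      have h1 := hb1 p hp n
      have h2 := hbpos p hp n
      have h3 : b p n / p ≤ 1 := by
        rw [div_le_one (by linarith)]; linarith
      have h4 : 0 ≤ b p n / p := by positivity
      constructor <;> linarith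
    have e1 : ∏ p ∈ J, (1 - b p n / p) ≤ 1 - b q n / q := by
      rw [← Finset.mul_prod_erase _ _ hq]
      apply mul_le_of_le_one_right (hfac q hq).1
      apply Finset.prod_le_one
      · intro p hp; exact (hfac p (Finset.mem_of_mem_erase hp)).1
      · intro p hp; exact (hfac p (Finset.mem_of_mem_erase hp)).2
    have e2 : ∏ p ∈ J, b p n ≤ b q n * b r n := by
      rw [← Finset.mul_prod_erase _ _ hq]
      apply mul_le_mul_of_nonneg_left _ (hbpos q hq n).le
      have hr' : r ∈ J.erase q := Finset.mem_erase.2 ⟨hrq, hr⟩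
      rw [← Finset.mul_prod_erase _ _ hr']
      apply mul_le_of_le_one_right (hbpos r hr n).le
      apply Finset.prod_le_one
      · intro p hp
        exact (hbpos p (Finset.mem_of_mem_erase (Finset.mem_of_mem_erase hp)) n).le
      · intro p hp
        exact hb1 p (Finset.mem_of_mem_erase (Finset.mem_of_mem_erase hp)) n
    have hBm := (compare m hm0).2.1
    have hBm0 := fB_pos hm0
    have hprod0 : 0 ≤ ∏ p ∈ J, b p n := Finset.prod_nonneg fun p hp => (hbpos p hp n).le
    have e3 : fB m * ∏ p ∈ J, b p n ≤ b q n * b r n := by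
      calc fB m * ∏ p ∈ J, b p n ≤ 1 * ∏ p ∈ J, b p n := mul_le_mul_of_nonneg_right hBm hprod0
        _ = ∏ p ∈ J, b p n := one_mul _
        _ ≤ _ := e2
    have e4 : b q n * b r n < b q n * (1 / q) := mul_lt_mul_of_pos_left hns (hbpos q hq n)
    have e5 : b q n * (1 / q) = b q n / q := by ring
    have e6 : 0 < b q n / q := div_pos (hbpos q hq n) (by linarith)
    linarith

end Pool.Agent.OTW
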